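import Pool.Agent.Lib.MP_c5b475_co.CF.Mcd

/-!
# Configuration lemma

Blocks of length `L` of `c` copies of `ZMod n` get independent random types. One choice of the types is good for all
tuples of at most `m0` conditions at the same time: the number of `x` whose points `±x + a i` (in copy `k i`) hit the
patterns `G i` is `n ∏ q i` up to `(θ + m β) n`.
-/

set_option autoImplicit false
set_option linter.unusedSectionVars false
set_option linter.unusedVariables false

open Finset

namespace Pool.Agent.Lib.MP_c5b475_co.CF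

/-- cyclic distance to `0` -/
def cd {n : ℕ} (x : ZMod n) : ℕ := min x.val (-x).val

/-- the point `x` of copy `k` hits the pattern `G` -/
def Hit {T : Type} {n c : ℕ} (w : Fin c → ℕ → T) (L : ℕ) (k : Fin c) (G : T → ℕ → Prop)
    (x : ZMod n) : Prop := G (w k (x.val / L)) (x.val % L)

/-- `x + a` or `a - x` -/
def pt {n : ℕ} (s : Bool) (a x : ZMod n) : ZMod n := if s then x + a else a - x

section prod

variable {R T : Type} [Fintype R] [Fintype T] {c : ℕ}

theorem EE_prod (ρ : R → ℝ) {B : ℕ} (h : Fin B → R → ℝ) :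
    EE ρ (fun w => ∏ b, h b (w b)) = ∏ b, ∑ r, ρ r * h b r := by
  unfold EE pw
  rw [Finset.prod_univ_sum, Fintype.piFinset_univ]
  exact sum_congr rfl fun w _ => (prod_mul_distrib).symm

/-- law of a block: independent types of the copies -/
noncomputable def rho (mu : Fin c → T → ℝ) (r : Fin c → T) : ℝ := ∏ k, mu k (r k)

theorem rho_nonneg (mu : Fin c → T → ℝ) (h0 : ∀ k t, 0 ≤ mu k t) (r : Fin c → T) :
    0 ≤ rho mu r := prod_nonneg fun k _ => h0 _ _

theorem rho_sum (mu : Fin c → T → ℝ) (h1 : ∀ k, ∑ t, mu k t = 1) : ∑ r, rho mu r = 1 := by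
  unfold rho
  rw [← Fintype.piFinset_univ, ← Finset.prod_univ_sum]
  exact prod_eq_one fun k _ => h1 k

theorem sum_rho_mul (mu : Fin c → T → ℝ) (h : Fin c → T → ℝ) :
    ∑ r : Fin c → T, rho mu r * ∏ k, h k (r k) = ∏ k, ∑ t, mu k t * h k t := by
  unfold rho
  rw [Finset.prod_univ_sum, Fintype.piFinset_univ]
  exact sum_congr rfl fun w _ => (prod_mul_distrib).symm

theorem single {m : ℕ} (mu : Fin c → T → ℝ) (h1 : ∀ k, ∑ t, mu k t = 1) (k : Fin m → Fin c)
    (g : Fin m → T → ℝ) (κ : Fin c) (I : Finset (Fin m)) (hI : ∀ i ∈ I, ∀ j ∈ I, i = j)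
    (hk : ∀ i ∈ I, k i = κ) :
    ∑ t, mu κ t * ∏ i ∈ I, g i t = ∏ i ∈ I, ∑ t, mu (k i) t * g i t := by
  rcases I.eq_empty_or_nonempty with rfl | ⟨i, hi⟩
  · simp [h1]
  · have hI2 : I = {i} := by
      ext j
      rw [mem_singleton]
      exact ⟨fun hj => hI j hj i hi, fun hj => hj ▸ hi⟩
    subst hI2
    rw [prod_singleton, hk i hi]
    simp only [prod_singleton]

theorem EE_hits {m B : ℕ} (mu : Fin c → T → ℝ) (h1 : ∀ k, ∑ t, mu k t = 1) (b : Fin m → Fin B)
    (k : Fin m → Fin c) (g : Fin m → T → ℝ) (hb : ∀ i j, i ≠ j → k i = k j → b i ≠ b j) :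
    EE (rho mu) (fun w : Fin B → Fin c → T => ∏ i, g i (w (b i) (k i))) =
      ∏ i, ∑ t, mu (k i) t * g i t := by
  classical
  have e1 : (fun w : Fin B → Fin c → T => ∏ i, g i (w (b i) (k i))) =
      fun w => ∏ β, (fun (β : Fin B) (r : Fin c → T) =>
        ∏ i ∈ univ.filter (fun i => b i = β), g i (r (k i))) β (w β) := by
    funext w
    rw [← Finset.prod_fiberwise univ b]
    refine prod_congr rfl fun β _ => prod_congr rfl fun i hi => ?_
    rw [(mem_filter.mp hi).2]
  rw [e1]
  refine (EE_prod (rho mu) (fun (β : Fin B) (r : Fin c → T) =>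
        ∏ i ∈ univ.filter (fun i => b i = β), g i (r (k i)))).trans ?_
  rw [← Finset.prod_fiberwise univ b (fun i => ∑ t, mu (k i) t * g i t)]
  refine prod_congr rfl fun β _ => ?_
  have e2 : ∀ r : Fin c → T, ∏ i ∈ univ.filter (fun i => b i = β), g i (r (k i)) =
      ∏ κ : Fin c, (fun (κ : Fin c) (t : T) =>
        ∏ i ∈ (univ.filter (fun i => b i = β)).filter (fun i => k i = κ), g i t) κ (r κ) := by
    intro r
    rw [← Finset.prod_fiberwise (univ.filter (fun i => b i = β)) k]
    refine prod_congr rfl fun κ _ => prod_congr rfl fun i hi => ?_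
    rw [(mem_filter.mp hi).2]
  simp_rw [e2]
  refine (sum_rho_mul mu (fun (κ : Fin c) (t : T) =>
        ∏ i ∈ (univ.filter (fun i => b i = β)).filter (fun i => k i = κ), g i t)).trans ?_
  rw [← Finset.prod_fiberwise (univ.filter (fun i => b i = β)) k
    (fun i => ∑ t, mu (k i) t * g i t)]
  refine prod_congr rfl fun κ _ => ?_
  apply single mu h1 k g κ
  · intro i hi j hj
    simp only [mem_filter, mem_univ, true_and] at hi hj
    by_contra hij
    exact hb i j hij (hi.2.trans hj.2.symm) (hi.1.trans hj.1.symm)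
  · intro i hi
    exact (mem_filter.mp hi).2

end prod

section cyc

variable {n : ℕ} [NeZero n]

theorem val_sub_small (L : ℕ) (x y : ZMod n) (h : x.val / L = y.val / L) (hL : 0 < L)
    (hxy : x.val ≤ y.val) : (y - x).val < L := by
  have h1 : (y - x).val = y.val - x.val := ZMod.val_sub hxy
  rw [h1]
  have h2 := Nat.div_add_mod x.val L
  have h3 := Nat.div_add_mod y.val L
  have h4 := Nat.mod_lt x.val hL
  have h5 := Nat.mod_lt y.val hL
  rw [h] at h2
  omega

theorem cd_lt_of_same (L : ℕ) (hL : 0 < L) (x y : ZMod n) (h : x.val / L = y.val / L) :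
    cd (x - y) < L := by
  unfold cd
  rcases le_total x.val y.val with h1 | h1
  · have := val_sub_small L x y h hL h1
    rw [neg_sub]
    exact (min_le_right _ _).trans_lt this
  · have := val_sub_small L y x h.symm hL h1
    exact (min_le_left _ _).trans_lt this

theorem pt_sub_same (s : Bool) (a b x : ZMod n) :
    cd (pt s a x - pt s b x) = cd (a - b) := by
  unfold pt
  cases s
  · simp
  · simp

open Classical in
theorem card_two_mul (v : ZMod n) : (univ.filter (fun x : ZMod n => 2 * x = v)).card ≤ 2 := by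
  have h : univ.filter (fun x : ZMod n => 2 * x = v) ⊆
      {(((v.val / 2 : ℕ) : ZMod n)), ((((v.val + n) / 2 : ℕ) : ZMod n))} := by
    intro x hx
    simp only [mem_filter, mem_univ, true_and] at hx
    have hx1 := ZMod.val_lt x
    have hv := ZMod.val_lt v
    have h2 : (2 * x.val) % n = v.val := by
      have h3 : ((2 * x.val : ℕ) : ZMod n) = v := by
        push_cast
        rw [ZMod.natCast_zmod_val]
        exact hx
      rw [← h3, ZMod.val_natCast]
    have h4 : 2 * x.val = v.val ∨ 2 * x.val = v.val + n := by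
      have h5 := Nat.div_add_mod (2 * x.val) n
      have h6 : 2 * x.val / n < 2 := by
        rw [Nat.div_lt_iff_lt_mul (by omega)]
        omega
      interval_cases hq : 2 * x.val / n
      · left; omega
      · right; omega
    have h7 : x = ((x.val : ℕ) : ZMod n) := (ZMod.natCast_zmod_val x).symm
    simp only [mem_insert, mem_singleton]
    rcases h4 with h4 | h4
    · left
      rw [h7]; congr 1; omega
    · right
      rw [h7]; congr 1; omega
  exact (card_le_card h).trans card_le_two

open Classical in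
/-- points of opposite signs are rarely in the same block -/
theorem card_opposite (L : ℕ) (hL : 0 < L) (a b : ZMod n) :
    (univ.filter (fun x : ZMod n => (x + a).val / L = (b - x).val / L)).card ≤ 4 * L := by
  have h : univ.filter (fun x : ZMod n => (x + a).val / L = (b - x).val / L) ⊆
      (range L).biUnion (fun d => univ.filter (fun x : ZMod n => 2 * x = b - a + (d : ZMod n)) ∪
        univ.filter (fun x : ZMod n => 2 * x = b - a - (d : ZMod n))) := by
    intro x hx
    simp only [mem_filter, mem_univ, true_and] at hx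
    simp only [mem_biUnion, mem_range, mem_union, mem_filter, mem_univ, true_and]
    rcases le_total (x + a).val (b - x).val with h1 | h1
    · refine ⟨((b - x) - (x + a)).val, val_sub_small L _ _ hx hL h1, Or.inr ?_⟩
      rw [ZMod.natCast_zmod_val]
      ring
    · refine ⟨((x + a) - (b - x)).val, val_sub_small L _ _ hx.symm hL h1, Or.inl ?_⟩
      rw [ZMod.natCast_zmod_val]
      ring
  calc _ ≤ _ := card_le_card h
    _ ≤ ∑ d ∈ range L, (univ.filter (fun x : ZMod n => 2 * x = b - a + (d : ZMod n)) ∪
        univ.filter (fun x : ZMod n => 2 * x = b - a - (d : ZMod n))).card := card_biUnion_le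
    _ ≤ ∑ d ∈ range L, 4 := by
        refine sum_le_sum fun d _ => (card_union_le _ _).trans ?_
        have h1 := card_two_mul (b - a + (d : ZMod n))
        have h2 := card_two_mul (b - a - (d : ZMod n))
        omega
    _ = 4 * L := by rw [sum_const, card_range, smul_eq_mul, mul_comm]

open Classical in
theorem card_pt (s : Bool) (a : ZMod n) (P : ZMod n → Prop) :
    (univ.filter (fun x : ZMod n => P (pt s a x))).card = (univ.filter P).card := by
  apply card_bij (fun x _ => pt s a x)
  · intro x hx
    simpa using hx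
  · intro x _ y _ hxy
    unfold pt at hxy
    cases s
    · simpa using hxy
    · simpa using hxy
  · intro y hy
    refine ⟨if s then y - a else a - y, ?_, ?_⟩
    · simp only [mem_filter, mem_univ, true_and] at hy ⊢
      unfold pt
      cases s <;> simpa using hy
    · unfold pt
      cases s <;> simp

open Classical in
theorem card_mod (L : ℕ) (hL : 0 < L) (Bd : Finset ℕ) :
    (univ.filter (fun y : ZMod n => y.val % L ∈ Bd)).card ≤ Bd.card * (n / L + 1) := by
  have h : (univ.filter (fun y : ZMod n => y.val % L ∈ Bd)).card ≤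
      (Bd ×ˢ range (n / L + 1)).card := by
    apply card_le_card_of_injOn (fun y => (y.val % L, y.val / L))
    · intro y hy
      simp only [coe_filter, mem_univ, true_and, Set.mem_ofPred_eq] at hy
      simp only [coe_product, Set.mem_prod, mem_coe, mem_range]
      refine ⟨hy, ?_⟩
      have h1 := ZMod.val_lt y
      exact Nat.lt_succ_of_le (Nat.div_le_div_right h1.le)
    · intro y _ z _ hyz
      simp only [Prod.mk.injEq] at hyz
      apply ZMod.val_injective n
      rw [← Nat.div_add_mod y.val L, ← Nat.div_add_mod z.val L, hyz.1, hyz.2]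
  rwa [card_product, card_range] at h

open Classical in
theorem card_block (L : ℕ) (hL : 0 < L) (b : ℕ) :
    (univ.filter (fun y : ZMod n => y.val / L = b)).card ≤ L := by
  have h : (univ.filter (fun y : ZMod n => y.val / L = b)).card ≤ (range L).card := by
    apply card_le_card_of_injOn (fun y => y.val % L)
    · intro y _
      simp only [coe_range, Set.mem_Iio]
      exact Nat.mod_lt _ hL
    · intro y hy z hz hyz
      simp only [coe_filter, mem_univ, true_and, Set.mem_ofPred_eq] at hy hz
      apply ZMod.val_injective n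
      have hyz' : y.val % L = z.val % L := hyz
      rw [← Nat.div_add_mod y.val L, ← Nat.div_add_mod z.val L, hy, hz, hyz']
  rwa [card_range] at h

end cyc

section count

variable {n c m B : ℕ} [NeZero n] {T : Type} [Fintype T]

open Classical in
/-- the count of a tuple of conditions; `bx` gives the block of a point -/
noncomputable def cnt (L : ℕ) (bx : ZMod n → Fin B) (k : Fin m → Fin c) (s : Fin m → Bool)
    (a : Fin m → ZMod n) (G : Fin m → T → ℕ → Prop) (w : Fin B → Fin c → T) : ℝ :=
  ∑ x : ZMod n, ∏ i : Fin m,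
    (if G i (w (bx (pt (s i) (a i) x)) (k i)) ((pt (s i) (a i) x).val % L) then (1 : ℝ) else 0)

open Classical in
theorem boole_mem {ι : Type} [Fintype ι] (P : ι → Prop) :
    0 ≤ ∏ i : ι, (if P i then (1 : ℝ) else 0) ∧ ∏ i : ι, (if P i then (1 : ℝ) else 0) ≤ 1 := by
  constructor
  · exact prod_nonneg fun i _ => by split_ifs <;> norm_num
  · exact prod_le_one (fun i _ => by split_ifs <;> norm_num)
      (fun i _ => by split_ifs <;> norm_num)

theorem cnt_diff (L : ℕ) (hL : 0 < L) (bx : ZMod n → Fin B)
    (hbx : ∀ x, (bx x : ℕ) = x.val / L) (k : Fin m → Fin c) (s : Fin m → Bool)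
    (a : Fin m → ZMod n) (G : Fin m → T → ℕ → Prop) (i : Fin B) (w : Fin B → Fin c → T)
    (r : Fin c → T) :
    |cnt L bx k s a G (Function.update w i r) - cnt L bx k s a G w| ≤ m * L := by
  classical
  unfold cnt
  rw [← sum_sub_distrib]
  refine (abs_sum_le_sum_abs _ _).trans ?_
  have h1 : ∀ x : ZMod n, |∏ j : Fin m, (if G j (Function.update w i r
        (bx (pt (s j) (a j) x)) (k j)) ((pt (s j) (a j) x).val % L) then (1 : ℝ) else 0) -
      ∏ j : Fin m, (if G j (w (bx (pt (s j) (a j) x)) (k j)) ((pt (s j) (a j) x).val % L)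
        then (1 : ℝ) else 0)| ≤
      ∑ j : Fin m, (if (pt (s j) (a j) x).val / L = (i : ℕ) then (1 : ℝ) else 0) := by
    intro x
    by_cases hx : ∀ j, bx (pt (s j) (a j) x) ≠ i
    · have : ∀ j : Fin m, Function.update w i r (bx (pt (s j) (a j) x)) =
          w (bx (pt (s j) (a j) x)) := fun j => Function.update_of_ne (hx j) _ _
      simp_rw [this]
      rw [sub_self, abs_zero]
      exact sum_nonneg fun j _ => by split_ifs <;> norm_num
    · push Not at hx
      obtain ⟨j, hj⟩ := hx
      have h2 : (1 : ℝ) ≤ ∑ j : Fin m,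
          (if (pt (s j) (a j) x).val / L = (i : ℕ) then (1 : ℝ) else 0) := by
        have := single_le_sum (f := fun j : Fin m =>
          (if (pt (s j) (a j) x).val / L = (i : ℕ) then (1 : ℝ) else 0))
          (fun j _ => by split_ifs <;> norm_num) (mem_univ j)
        have e5 : (pt (s j) (a j) x).val / L = (i : ℕ) := by rw [← hbx, hj]
        rw [if_pos e5] at this
        exact this
      refine le_trans ?_ h2
      have h3 := boole_mem (fun j : Fin m => G j (Function.update w i r
        (bx (pt (s j) (a j) x)) (k j)) ((pt (s j) (a j) x).val % L))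
      have h4 := boole_mem (fun j : Fin m => G j (w (bx (pt (s j) (a j) x)) (k j))
        ((pt (s j) (a j) x).val % L))
      rw [abs_le]
      constructor <;> linarith [h3.1, h3.2, h4.1, h4.2]
  refine (sum_le_sum fun x _ => h1 x).trans ?_
  rw [sum_comm]
  have h5 : ∀ j : Fin m, ∑ x : ZMod n,
      (if (pt (s j) (a j) x).val / L = (i : ℕ) then (1 : ℝ) else 0) ≤ L := by
    intro j
    rw [sum_boole]
    have h6 := card_pt (s j) (a j) (fun y : ZMod n => y.val / L = (i : ℕ))
    have h7 := card_block (n := n) L hL (i : ℕ)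
    have h8 : (univ.filter (fun x : ZMod n => (pt (s j) (a j) x).val / L = (i : ℕ))).card ≤ L := by
      refine le_trans (le_of_eq ?_) h7
      convert h6
    exact_mod_cast h8
  refine (sum_le_sum fun j _ => h5 j).trans ?_
  rw [sum_const, card_univ, Fintype.card_fin, nsmul_eq_mul]

theorem EE_cnt (mu : Fin c → T → ℝ) (h0 : ∀ k t, 0 ≤ mu k t) (h1 : ∀ k, ∑ t, mu k t = 1)
    (L : ℕ) (hL : 0 < L) (β : ℝ) (hβ : β < 1) (bx : ZMod n → Fin B)
    (hbx : ∀ x, (bx x : ℕ) = x.val / L) (k : Fin m → Fin c) (s : Fin m → Bool)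
    (a : Fin m → ZMod n) (G : Fin m → T → ℕ → Prop) (q : Fin m → ℝ) (Bd : Finset ℕ)
    (hq : ∀ i, ∀ p < L, p ∉ Bd →
      ∑ t, (open Classical in if G i t p then mu (k i) t else 0) = q i)
    (hBd : (Bd.card : ℝ) ≤ β * L)
    (ha : ∀ i j, i ≠ j → k i = k j → s i = s j → L ≤ cd (a i - a j)) :
    |EE (rho mu) (cnt L bx k s a G) - n * ∏ i, q i| ≤ 4 * m ^ 2 * L + m * β * (n + L) := by
  classical
  have hLr : (0 : ℝ) < L := by exact_mod_cast hL
  have hβ0 : 0 ≤ β := by
    by_contra hcon
    push Not at hcon
    have : β * L < 0 := mul_neg_of_neg_of_pos hcon hLr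
    have h2 : (0 : ℝ) ≤ Bd.card := Nat.cast_nonneg _
    linarith
  -- a good position
  obtain ⟨p0, hp0, hp0B⟩ : ∃ p < L, p ∉ Bd := by
    by_contra hcon
    push Not at hcon
    have h2 : range L ⊆ Bd := fun p hp => hcon p (mem_range.mp hp)
    have h3 := card_le_card h2
    rw [card_range] at h3
    have h4 : (L : ℝ) ≤ Bd.card := by exact_mod_cast h3
    nlinarith
  have hq01 : ∀ i, 0 ≤ q i ∧ q i ≤ 1 := by
    intro i
    rw [← hq i p0 hp0 hp0B]
    constructor
    · exact sum_nonneg fun t _ => by split_ifs <;> [exact h0 _ _; exact le_refl _]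
    · rw [← h1 (k i)]
      exact sum_le_sum fun t _ => by split_ifs <;> [exact le_refl _; exact h0 _ _]
  have hQ0 : 0 ≤ ∏ i, q i := prod_nonneg fun i _ => (hq01 i).1
  have hQ1 : ∏ i, q i ≤ 1 := prod_le_one (fun i _ => (hq01 i).1) (fun i _ => (hq01 i).2)
  -- expectation as a sum over `x`
  have hE : EE (rho mu) (cnt L bx k s a G) = ∑ x : ZMod n, EE (rho mu)
      (fun w : Fin B → Fin c → T => ∏ i : Fin m,
        (if G i (w (bx (pt (s i) (a i) x)) (k i)) ((pt (s i) (a i) x).val % L)
          then (1 : ℝ) else 0)) := by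
    rw [← EE_sum]
    rfl
  rw [hE]
  set P : ZMod n → ℝ := fun x => EE (rho mu)
      (fun w : Fin B → Fin c → T => ∏ i : Fin m,
        (if G i (w (bx (pt (s i) (a i) x)) (k i)) ((pt (s i) (a i) x).val % L)
          then (1 : ℝ) else 0)) with hP
  have hP01 : ∀ x, 0 ≤ P x ∧ P x ≤ 1 := by
    intro x
    constructor
    · have := EE_mono (rho mu) (rho_nonneg mu h0) (fun _ : Fin B → Fin c → T => (0 : ℝ)) _
        (fun w => (boole_mem (fun i : Fin m =>
          G i (w (bx (pt (s i) (a i) x)) (k i)) ((pt (s i) (a i) x).val % L))).1)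
      rwa [EE_const _ (rho_sum mu h1)] at this
    · have := EE_mono (rho mu) (rho_nonneg mu h0) _ (fun _ : Fin B → Fin c → T => (1 : ℝ))
        (fun w => (boole_mem (fun i : Fin m =>
          G i (w (bx (pt (s i) (a i) x)) (k i)) ((pt (s i) (a i) x).val % L))).2)
      rwa [EE_const _ (rho_sum mu h1)] at this
  -- the exceptional set
  set X1 : Finset (ZMod n) := (univ : Finset (Fin m × Fin m)).biUnion (fun ij =>
    if s ij.1 = s ij.2 then ∅ else univ.filter (fun x : ZMod n =>
      (pt (s ij.1) (a ij.1) x).val / L = (pt (s ij.2) (a ij.2) x).val / L)) with hX1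
  set X2 : Finset (ZMod n) := (univ : Finset (Fin m)).biUnion (fun i =>
    univ.filter (fun x : ZMod n => (pt (s i) (a i) x).val % L ∈ Bd)) with hX2
  have hgood : ∀ x, x ∉ X1 ∪ X2 → P x = ∏ i, q i := by
    intro x hx
    rw [mem_union, not_or] at hx
    have hb : ∀ i j : Fin m, i ≠ j → k i = k j →
        bx (pt (s i) (a i) x) ≠ bx (pt (s j) (a j) x) := by
      intro i j hij hkij hcon
      have h2 : (pt (s i) (a i) x).val / L = (pt (s j) (a j) x).val / L := by
        rw [← hbx, ← hbx, hcon]
      by_cases hs : s i = s j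
      · have h3 := cd_lt_of_same L hL _ _ h2
        rw [hs, pt_sub_same] at h3
        exact absurd (ha i j hij hkij hs) (not_le.mpr h3)
      · apply hx.1
        rw [hX1, mem_biUnion]
        refine ⟨(i, j), mem_univ _, ?_⟩
        rw [if_neg hs, mem_filter]
        exact ⟨mem_univ _, h2⟩
    have h4 := EE_hits mu h1 (fun i => bx (pt (s i) (a i) x)) k
      (fun i t => if G i t ((pt (s i) (a i) x).val % L) then (1 : ℝ) else 0) hb
    rw [hP]
    refine h4.trans (prod_congr rfl fun i _ => ?_)
    have h5 : (pt (s i) (a i) x).val % L ∉ Bd := by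
      intro hcon
      apply hx.2
      rw [hX2, mem_biUnion]
      exact ⟨i, mem_univ _, mem_filter.mpr ⟨mem_univ _, hcon⟩⟩
    rw [← hq i _ (Nat.mod_lt _ hL) h5]
    refine sum_congr rfl fun t _ => ?_
    split_ifs <;> simp
  have hX : ((X1 ∪ X2).card : ℝ) ≤ 4 * m ^ 2 * L + m * β * (n + L) := by
    have h6 : X1.card ≤ m ^ 2 * (4 * L) := by
      rw [hX1]
      refine card_biUnion_le.trans ?_
      have h7 : ∀ ij ∈ (univ : Finset (Fin m × Fin m)), (if s ij.1 = s ij.2 then
          (∅ : Finset (ZMod n)) else univ.filter (fun x : ZMod n =>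
        (pt (s ij.1) (a ij.1) x).val / L = (pt (s ij.2) (a ij.2) x).val / L)).card ≤ 4 * L := by
        rintro ⟨i, j⟩ -
        simp only
        split_ifs with hs
        · simp
        · cases hi : s i <;> cases hj : s j
          · exact absurd (hi.trans hj.symm) hs
          · have := card_opposite (n := n) L hL (a j) (a i)
            refine le_trans (card_le_card ?_) this
            intro x hx
            rw [mem_filter] at hx ⊢
            exact ⟨hx.1, hx.2.symm⟩
          · exact card_opposite (n := n) L hL (a i) (a j)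
          · exact absurd (hi.trans hj.symm) hs
      refine (sum_le_sum h7).trans (le_of_eq ?_)
      rw [sum_const, card_univ, Fintype.card_prod, Fintype.card_fin, smul_eq_mul]
      ring
    have h8 : X2.card ≤ m * (Bd.card * (n / L + 1)) := by
      rw [hX2]
      refine card_biUnion_le.trans ?_
      have h9 : ∀ i ∈ (univ : Finset (Fin m)),
          (univ.filter (fun x : ZMod n => (pt (s i) (a i) x).val % L ∈ Bd)).card ≤
            Bd.card * (n / L + 1) := fun i _ => by
        have e3 := card_pt (s i) (a i) (fun y : ZMod n => y.val % L ∈ Bd)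
        have e4 := card_mod (n := n) L hL Bd
        refine le_trans (le_of_eq ?_) e4
        convert e3
      refine (sum_le_sum h9).trans (le_of_eq ?_)
      rw [sum_const, card_univ, Fintype.card_fin, smul_eq_mul]
    have h10 : ((X1 ∪ X2).card : ℝ) ≤ X1.card + X2.card := by
      exact_mod_cast card_union_le X1 X2
    have h11 : (X1.card : ℝ) ≤ 4 * m ^ 2 * L := by
      have : (X1.card : ℝ) ≤ ((m ^ 2 * (4 * L) : ℕ) : ℝ) := by exact_mod_cast h6
      push_cast at this
      linarith
    have h12 : (X2.card : ℝ) ≤ m * β * (n + L) := by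
      have h13 : (X2.card : ℝ) ≤ ((m * (Bd.card * (n / L + 1)) : ℕ) : ℝ) := by exact_mod_cast h8
      push_cast at h13
      have h14 : ((n / L : ℕ) : ℝ) ≤ (n : ℝ) / L := Nat.cast_div_le
      have h15 : (Bd.card : ℝ) * (((n / L : ℕ) : ℝ) + 1) ≤ β * (n + L) := by
        have h16 : (((n / L : ℕ) : ℝ) + 1) ≤ (n : ℝ) / L + 1 := by linarith
        calc (Bd.card : ℝ) * (((n / L : ℕ) : ℝ) + 1) ≤ (β * L) * ((n : ℝ) / L + 1) := by
              apply mul_le_mul hBd h16 (by positivity) (by positivity)
          _ = β * (n + L) := by field_simp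
      calc (X2.card : ℝ) ≤ m * (Bd.card * (((n / L : ℕ) : ℝ) + 1)) := h13
        _ ≤ m * (β * (n + L)) := mul_le_mul_of_nonneg_left h15 (Nat.cast_nonneg _)
        _ = _ := by ring
    linarith
  -- conclusion
  have hn : (n : ℝ) * ∏ i, q i = ∑ x : ZMod n, ∏ i, q i := by
    rw [sum_const, card_univ, ZMod.card, nsmul_eq_mul]
  rw [hn, ← sum_sub_distrib]
  refine (abs_sum_le_sum_abs _ _).trans ?_
  have h17 : ∑ x : ZMod n, |P x - ∏ i, q i| ≤ ∑ x : ZMod n, (if x ∈ X1 ∪ X2 then (1 : ℝ) else 0) := by
    refine sum_le_sum fun x _ => ?_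
    split_ifs with hx
    · rw [abs_le]
      constructor <;> linarith [(hP01 x).1, (hP01 x).2]
    · rw [hgood x hx, sub_self, abs_zero]
  refine h17.trans ?_
  rw [sum_boole]
  have h18 : univ.filter (fun x => x ∈ X1 ∪ X2) = X1 ∪ X2 := by
    ext x; simp
  rw [h18]
  exact hX

end count

end Pool.Agent.Lib.MP_c5b475_co.CF
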