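import Pool.Agent.Lib.MP_c5b475_co.CF.Main

/-!
# Configuration lemma for predicates of the whole state of a block

`config2`: as `config`, but a condition is a predicate of the state `Fin c → T` of the block and of the position; it
depends only on the coordinates in `D i`. Points of the same sign have to be far apart only if the sets `D i` meet.
-/

set_option autoImplicit false
set_option linter.unusedSectionVars false
set_option linter.unusedVariables false

open Finset

namespace Pool.Agent.Lib.MP_c5b475_co.CF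

/-- the point `x` hits the pattern `G` -/
def Hit2 {T : Type} {n c : ℕ} (w : Fin c → ℕ → T) (L : ℕ) (G : (Fin c → T) → ℕ → Prop)
    (x : ZMod n) : Prop := G (fun k => w k (x.val / L)) (x.val % L)

section prod

variable {T : Type} [Fintype T] {c : ℕ}

/-- `r` on `D`, `r'` outside -/
def mix (D : Finset (Fin c)) (r r' : Fin c → T) : Fin c → T := fun k => if k ∈ D then r k else r' k

theorem indep (mu : Fin c → T → ℝ) (h1 : ∀ k, ∑ t, mu k t = 1) (D : Finset (Fin c))
    (f h : (Fin c → T) → ℝ) (hf : ∀ r r', (∀ k ∈ D, r k = r' k) → f r = f r')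
    (hh : ∀ r r', (∀ k, k ∉ D → r k = r' k) → h r = h r') :
    ∑ r, rho mu r * (f r * h r) = (∑ r, rho mu r * f r) * ∑ r, rho mu r * h r := by
  have hinv : Function.Involutive (fun p : (Fin c → T) × (Fin c → T) =>
      (mix D p.1 p.2, mix D p.2 p.1)) := by
    rintro ⟨r, r'⟩
    refine Prod.ext ?_ ?_
    · funext k
      by_cases hk : k ∈ D <;> simp [mix, hk]
    · funext k
      by_cases hk : k ∈ D <;> simp [mix, hk]
  have e1 : (∑ r, rho mu r * f r) * ∑ r, rho mu r * h r =
      ∑ p : (Fin c → T) × (Fin c → T), (rho mu p.1 * f p.1) * (rho mu p.2 * h p.2) := by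
    rw [sum_mul_sum, Fintype.sum_prod_type]
  have e2 : ∑ p : (Fin c → T) × (Fin c → T), (rho mu p.1 * f p.1) * (rho mu p.2 * h p.2) =
      ∑ p : (Fin c → T) × (Fin c → T), rho mu p.2 * (rho mu p.1 * (f p.1 * h p.1)) := by
    rw [← Equiv.sum_comp (hinv.toPerm) (fun p : (Fin c → T) × (Fin c → T) =>
      rho mu p.2 * (rho mu p.1 * (f p.1 * h p.1)))]
    refine sum_congr rfl fun p _ => ?_
    have h3 : (hinv.toPerm) p = (mix D p.1 p.2, mix D p.2 p.1) := rfl
    rw [h3]
    have h4 : f (mix D p.1 p.2) = f p.1 := hf _ _ fun k hk => by simp [mix, hk]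
    have h5 : h (mix D p.1 p.2) = h p.2 := hh _ _ fun k hk => by simp [mix, hk]
    have h6 : rho mu (mix D p.2 p.1) * rho mu (mix D p.1 p.2) = rho mu p.1 * rho mu p.2 := by
      unfold rho
      rw [← prod_mul_distrib, ← prod_mul_distrib]
      refine prod_congr rfl fun k _ => ?_
      by_cases hk : k ∈ D
      · simp only [mix, hk, if_true]
        ring
      · simp only [mix, hk, if_false]
    simp only
    rw [h4, h5]
    linear_combination (-(f p.1 * h p.2)) * h6
  have e3 : ∑ p : (Fin c → T) × (Fin c → T), rho mu p.2 * (rho mu p.1 * (f p.1 * h p.1)) =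
      ∑ r, rho mu r * (f r * h r) := by
    rw [Fintype.sum_prod_type_right]
    simp only
    have h7 : ∀ r', ∑ r, rho mu r' * (rho mu r * (f r * h r)) =
        rho mu r' * ∑ r, rho mu r * (f r * h r) := fun r' => (mul_sum _ _ _).symm
    simp_rw [h7]
    rw [← sum_mul, rho_sum mu h1, one_mul]
  rw [e1, e2, e3]

theorem indep_prod {m : ℕ} (mu : Fin c → T → ℝ) (h1 : ∀ k, ∑ t, mu k t = 1)
    (D : Fin m → Finset (Fin c)) (g : Fin m → (Fin c → T) → ℝ)
    (hg : ∀ i r r', (∀ k ∈ D i, r k = r' k) → g i r = g i r') (I : Finset (Fin m))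
    (hI : ∀ i ∈ I, ∀ j ∈ I, i ≠ j → Disjoint (D i) (D j)) :
    ∑ r, rho mu r * ∏ i ∈ I, g i r = ∏ i ∈ I, ∑ r, rho mu r * g i r := by
  classical
  induction I using Finset.induction_on with
  | empty => simp [rho_sum mu h1]
  | insert i I hi ih =>
    rw [prod_insert hi]
    simp_rw [prod_insert hi]
    rw [indep mu h1 (D i) (g i) (fun r => ∏ j ∈ I, g j r) (hg i), ih]
    · intro a ha b hb hab
      exact hI a (mem_insert_of_mem ha) b (mem_insert_of_mem hb) hab
    · intro r r' hrr
      refine prod_congr rfl fun j hj => hg j r r' fun k hk => hrr k ?_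
      intro hki
      have hne : i ≠ j := fun h => hi (h ▸ hj)
      exact (disjoint_left.mp (hI i (mem_insert_self _ _) j (mem_insert_of_mem hj) hne)) hki hk

theorem EE_hits2 {m B : ℕ} (mu : Fin c → T → ℝ) (h1 : ∀ k, ∑ t, mu k t = 1) (b : Fin m → Fin B)
    (D : Fin m → Finset (Fin c)) (g : Fin m → (Fin c → T) → ℝ)
    (hg : ∀ i r r', (∀ k ∈ D i, r k = r' k) → g i r = g i r')
    (hb : ∀ i j, i ≠ j → ¬ Disjoint (D i) (D j) → b i ≠ b j) :
    EE (rho mu) (fun w : Fin B → Fin c → T => ∏ i, g i (w (b i))) =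
      ∏ i, ∑ r, rho mu r * g i r := by
  classical
  have e1 : (fun w : Fin B → Fin c → T => ∏ i, g i (w (b i))) =
      fun w => ∏ β, (fun (β : Fin B) (r : Fin c → T) =>
        ∏ i ∈ univ.filter (fun i => b i = β), g i r) β (w β) := by
    funext w
    rw [← Finset.prod_fiberwise univ b]
    refine prod_congr rfl fun β _ => prod_congr rfl fun i hi => ?_
    rw [(mem_filter.mp hi).2]
  rw [e1]
  refine (EE_prod (rho mu) (fun (β : Fin B) (r : Fin c → T) =>
        ∏ i ∈ univ.filter (fun i => b i = β), g i r)).trans ?_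
  rw [← Finset.prod_fiberwise univ b (fun i => ∑ r, rho mu r * g i r)]
  refine prod_congr rfl fun β _ => ?_
  refine indep_prod mu h1 D g hg _ ?_
  intro i hi j hj hij
  simp only [mem_filter, mem_univ, true_and] at hi hj
  by_contra hdis
  exact hb i j hij hdis (hi.trans hj.symm)

end prod

section count

variable {n c m B : ℕ} [NeZero n] {T : Type} [Fintype T]

open Classical in
/-- the count of a tuple of conditions -/
noncomputable def cnt2 (L : ℕ) (bx : ZMod n → Fin B) (s : Fin m → Bool)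
    (a : Fin m → ZMod n) (G : Fin m → (Fin c → T) → ℕ → Prop) (w : Fin B → Fin c → T) : ℝ :=
  ∑ x : ZMod n, ∏ i : Fin m,
    (if G i (w (bx (pt (s i) (a i) x))) ((pt (s i) (a i) x).val % L) then (1 : ℝ) else 0)

theorem cnt2_diff (L : ℕ) (hL : 0 < L) (bx : ZMod n → Fin B)
    (hbx : ∀ x, (bx x : ℕ) = x.val / L) (s : Fin m → Bool)
    (a : Fin m → ZMod n) (G : Fin m → (Fin c → T) → ℕ → Prop) (i : Fin B) (w : Fin B → Fin c → T)
    (r : Fin c → T) :
    |cnt2 L bx s a G (Function.update w i r) - cnt2 L bx s a G w| ≤ m * L := by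
  classical
  unfold cnt2
  rw [← sum_sub_distrib]
  refine (abs_sum_le_sum_abs _ _).trans ?_
  have h1 : ∀ x : ZMod n, |∏ j : Fin m, (if G j (Function.update w i r
        (bx (pt (s j) (a j) x))) ((pt (s j) (a j) x).val % L) then (1 : ℝ) else 0) -
      ∏ j : Fin m, (if G j (w (bx (pt (s j) (a j) x))) ((pt (s j) (a j) x).val % L)
        then (1 : ℝ) else 0)| ≤
      ∑ j : Fin m, (if (pt (s j) (a j) x).val / L = (i : ℕ) then (1 : ℝ) else 0) := by
    intro x
    by_cases hx : ∀ j, bx (pt (s j) (a j) x) ≠ i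
    · have : ∀ j : Fin m, Function.update w i r (bx (pt (s j) (a j) x)) =
          w (bx (pt (s j) (a j) x)) := fun j => Function.update_of_ne (hx j) _ _
      simp_rw [this]
      rw [sub_self, abs_zero]
      exact sum_nonneg fun j _ => by split_ifs <;> norm_num
    · push Not at hx
      obtain ⟨j, hj⟩ := hx
      have h2 : (1 : ℝ) ≤ ∑ j : Fin m,
          (if (pt (s j) (a j) x).val / L = (i : ℕ) then (1 : ℝ) else 0) := by
        have := single_le_sum (f := fun j : Fin m =>
          (if (pt (s j) (a j) x).val / L = (i : ℕ) then (1 : ℝ) else 0))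
          (fun j _ => by split_ifs <;> norm_num) (mem_univ j)
        have e5 : (pt (s j) (a j) x).val / L = (i : ℕ) := by rw [← hbx, hj]
        rw [if_pos e5] at this
        exact this
      refine le_trans ?_ h2
      have h3 := boole_mem (fun j : Fin m => G j (Function.update w i r
        (bx (pt (s j) (a j) x))) ((pt (s j) (a j) x).val % L))
      have h4 := boole_mem (fun j : Fin m => G j (w (bx (pt (s j) (a j) x)))
        ((pt (s j) (a j) x).val % L))
      rw [abs_le]
      constructor <;> linarith [h3.1, h3.2, h4.1, h4.2]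
  refine (sum_le_sum fun x _ => h1 x).trans ?_
  rw [sum_comm]
  have h5 : ∀ j : Fin m, ∑ x : ZMod n,
      (if (pt (s j) (a j) x).val / L = (i : ℕ) then (1 : ℝ) else 0) ≤ L := by
    intro j
    rw [sum_boole]
    have h6 := card_pt (s j) (a j) (fun y : ZMod n => y.val / L = (i : ℕ))
    have h7 := card_block (n := n) L hL (i : ℕ)
    have h8 : (univ.filter (fun x : ZMod n => (pt (s j) (a j) x).val / L = (i : ℕ))).card ≤ L := by
      refine le_trans (le_of_eq ?_) h7
      convert h6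
    exact_mod_cast h8
  refine (sum_le_sum fun j _ => h5 j).trans ?_
  rw [sum_const, card_univ, Fintype.card_fin, nsmul_eq_mul]

theorem EE_cnt2 (mu : Fin c → T → ℝ) (h0 : ∀ k t, 0 ≤ mu k t) (h1 : ∀ k, ∑ t, mu k t = 1)
    (L : ℕ) (hL : 0 < L) (β : ℝ) (hβ : β < 1) (bx : ZMod n → Fin B)
    (hbx : ∀ x, (bx x : ℕ) = x.val / L) (D : Fin m → Finset (Fin c)) (s : Fin m → Bool)
    (a : Fin m → ZMod n) (G : Fin m → (Fin c → T) → ℕ → Prop)
    (hG : ∀ i p r r', (∀ k ∈ D i, r k = r' k) → (G i r p ↔ G i r' p))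
    (q : Fin m → ℝ) (Bd : Finset ℕ)
    (hq : ∀ i, ∀ p < L, p ∉ Bd →
      ∑ t : Fin c → T, (open Classical in if G i t p then ∏ k, mu k (t k) else 0) = q i)
    (hBd : (Bd.card : ℝ) ≤ β * L)
    (ha : ∀ i j, i ≠ j → ¬ Disjoint (D i) (D j) → s i = s j → L ≤ cd (a i - a j)) :
    |EE (rho mu) (cnt2 L bx s a G) - n * ∏ i, q i| ≤ 4 * m ^ 2 * L + m * β * (n + L) := by
  classical
  have hLr : (0 : ℝ) < L := by exact_mod_cast hL
  have hβ0 : 0 ≤ β := by
    by_contra hcon
    push Not at hcon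
    have : β * L < 0 := mul_neg_of_neg_of_pos hcon hLr
    have h2 : (0 : ℝ) ≤ Bd.card := Nat.cast_nonneg _
    linarith
  -- a good position
  obtain ⟨p0, hp0, hp0B⟩ : ∃ p < L, p ∉ Bd := by
    by_contra hcon
    push Not at hcon
    have h2 : range L ⊆ Bd := fun p hp => hcon p (mem_range.mp hp)
    have h3 := card_le_card h2
    rw [card_range] at h3
    have h4 : (L : ℝ) ≤ Bd.card := by exact_mod_cast h3
    nlinarith
  have hrho0 := rho_nonneg mu h0
  have hq01 : ∀ i, 0 ≤ q i ∧ q i ≤ 1 := by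
    intro i
    rw [← hq i p0 hp0 hp0B]
    constructor
    · exact sum_nonneg fun t _ => by
        split_ifs
        · exact hrho0 t
        · exact le_refl _
    · rw [← rho_sum mu h1]
      exact sum_le_sum fun t _ => by
        split_ifs
        · exact le_refl _
        · exact hrho0 t
  have hQ0 : 0 ≤ ∏ i, q i := prod_nonneg fun i _ => (hq01 i).1
  have hQ1 : ∏ i, q i ≤ 1 := prod_le_one (fun i _ => (hq01 i).1) (fun i _ => (hq01 i).2)
  -- expectation as a sum over `x`
  have hE : EE (rho mu) (cnt2 L bx s a G) = ∑ x : ZMod n, EE (rho mu)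
      (fun w : Fin B → Fin c → T => ∏ i : Fin m,
        (if G i (w (bx (pt (s i) (a i) x))) ((pt (s i) (a i) x).val % L)
          then (1 : ℝ) else 0)) := by
    rw [← EE_sum]
    rfl
  rw [hE]
  set P : ZMod n → ℝ := fun x => EE (rho mu)
      (fun w : Fin B → Fin c → T => ∏ i : Fin m,
        (if G i (w (bx (pt (s i) (a i) x))) ((pt (s i) (a i) x).val % L)
          then (1 : ℝ) else 0)) with hP
  have hP01 : ∀ x, 0 ≤ P x ∧ P x ≤ 1 := by
    intro x
    constructor
    · have := EE_mono (rho mu) (rho_nonneg mu h0) (fun _ : Fin B → Fin c → T => (0 : ℝ)) _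
        (fun w => (boole_mem (fun i : Fin m =>
          G i (w (bx (pt (s i) (a i) x))) ((pt (s i) (a i) x).val % L))).1)
      rwa [EE_const _ (rho_sum mu h1)] at this
    · have := EE_mono (rho mu) (rho_nonneg mu h0) _ (fun _ : Fin B → Fin c → T => (1 : ℝ))
        (fun w => (boole_mem (fun i : Fin m =>
          G i (w (bx (pt (s i) (a i) x))) ((pt (s i) (a i) x).val % L))).2)
      rwa [EE_const _ (rho_sum mu h1)] at this
  -- the exceptional set
  set X1 : Finset (ZMod n) := (univ : Finset (Fin m × Fin m)).biUnion (fun ij =>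
    if s ij.1 = s ij.2 then ∅ else univ.filter (fun x : ZMod n =>
      (pt (s ij.1) (a ij.1) x).val / L = (pt (s ij.2) (a ij.2) x).val / L)) with hX1
  set X2 : Finset (ZMod n) := (univ : Finset (Fin m)).biUnion (fun i =>
    univ.filter (fun x : ZMod n => (pt (s i) (a i) x).val % L ∈ Bd)) with hX2
  have hgood : ∀ x, x ∉ X1 ∪ X2 → P x = ∏ i, q i := by
    intro x hx
    rw [mem_union, not_or] at hx
    have hb : ∀ i j : Fin m, i ≠ j → ¬ Disjoint (D i) (D j) →
        bx (pt (s i) (a i) x) ≠ bx (pt (s j) (a j) x) := by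
      intro i j hij hkij hcon
      have h2 : (pt (s i) (a i) x).val / L = (pt (s j) (a j) x).val / L := by
        rw [← hbx, ← hbx, hcon]
      by_cases hs : s i = s j
      · have h3 := cd_lt_of_same L hL _ _ h2
        rw [hs, pt_sub_same] at h3
        exact absurd (ha i j hij hkij hs) (not_le.mpr h3)
      · apply hx.1
        rw [hX1, mem_biUnion]
        refine ⟨(i, j), mem_univ _, ?_⟩
        rw [if_neg hs, mem_filter]
        exact ⟨mem_univ _, h2⟩
    have h4 := EE_hits2 mu h1 (fun i => bx (pt (s i) (a i) x)) D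
      (fun i t => if G i t ((pt (s i) (a i) x).val % L) then (1 : ℝ) else 0)
      (fun i r r' hrr => by
        have := hG i ((pt (s i) (a i) x).val % L) r r' hrr
        simp only [this]) hb
    rw [hP]
    refine h4.trans (prod_congr rfl fun i _ => ?_)
    have h5 : (pt (s i) (a i) x).val % L ∉ Bd := by
      intro hcon
      apply hx.2
      rw [hX2, mem_biUnion]
      exact ⟨i, mem_univ _, mem_filter.mpr ⟨mem_univ _, hcon⟩⟩
    rw [← hq i _ (Nat.mod_lt _ hL) h5]
    refine sum_congr rfl fun t _ => ?_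
    unfold rho
    split_ifs <;> simp
  have hX : ((X1 ∪ X2).card : ℝ) ≤ 4 * m ^ 2 * L + m * β * (n + L) := by
    have h6 : X1.card ≤ m ^ 2 * (4 * L) := by
      rw [hX1]
      refine card_biUnion_le.trans ?_
      have h7 : ∀ ij ∈ (univ : Finset (Fin m × Fin m)), (if s ij.1 = s ij.2 then
          (∅ : Finset (ZMod n)) else univ.filter (fun x : ZMod n =>
        (pt (s ij.1) (a ij.1) x).val / L = (pt (s ij.2) (a ij.2) x).val / L)).card ≤ 4 * L := by
        rintro ⟨i, j⟩ -
        simp only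
        split_ifs with hs
        · simp
        · cases hi : s i <;> cases hj : s j
          · exact absurd (hi.trans hj.symm) hs
          · have := card_opposite (n := n) L hL (a j) (a i)
            refine le_trans (card_le_card ?_) this
            intro x hx
            rw [mem_filter] at hx ⊢
            exact ⟨hx.1, hx.2.symm⟩
          · exact card_opposite (n := n) L hL (a i) (a j)
          · exact absurd (hi.trans hj.symm) hs
      refine (sum_le_sum h7).trans (le_of_eq ?_)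
      rw [sum_const, card_univ, Fintype.card_prod, Fintype.card_fin, smul_eq_mul]
      ring
    have h8 : X2.card ≤ m * (Bd.card * (n / L + 1)) := by
      rw [hX2]
      refine card_biUnion_le.trans ?_
      have h9 : ∀ i ∈ (univ : Finset (Fin m)),
          (univ.filter (fun x : ZMod n => (pt (s i) (a i) x).val % L ∈ Bd)).card ≤
            Bd.card * (n / L + 1) := fun i _ => by
        have e3 := card_pt (s i) (a i) (fun y : ZMod n => y.val % L ∈ Bd)
        have e4 := card_mod (n := n) L hL Bd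
        refine le_trans (le_of_eq ?_) e4
        convert e3
      refine (sum_le_sum h9).trans (le_of_eq ?_)
      rw [sum_const, card_univ, Fintype.card_fin, smul_eq_mul]
    have h10 : ((X1 ∪ X2).card : ℝ) ≤ X1.card + X2.card := by
      exact_mod_cast card_union_le X1 X2
    have h11 : (X1.card : ℝ) ≤ 4 * m ^ 2 * L := by
      have : (X1.card : ℝ) ≤ ((m ^ 2 * (4 * L) : ℕ) : ℝ) := by exact_mod_cast h6
      push_cast at this
      linarith
    have h12 : (X2.card : ℝ) ≤ m * β * (n + L) := by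
      have h13 : (X2.card : ℝ) ≤ ((m * (Bd.card * (n / L + 1)) : ℕ) : ℝ) := by exact_mod_cast h8
      push_cast at h13
      have h14 : ((n / L : ℕ) : ℝ) ≤ (n : ℝ) / L := Nat.cast_div_le
      have h15 : (Bd.card : ℝ) * (((n / L : ℕ) : ℝ) + 1) ≤ β * (n + L) := by
        have h16 : (((n / L : ℕ) : ℝ) + 1) ≤ (n : ℝ) / L + 1 := by linarith
        calc (Bd.card : ℝ) * (((n / L : ℕ) : ℝ) + 1) ≤ (β * L) * ((n : ℝ) / L + 1) := by
              apply mul_le_mul hBd h16 (by positivity) (by positivity)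
          _ = β * (n + L) := by field_simp
      calc (X2.card : ℝ) ≤ m * (Bd.card * (((n / L : ℕ) : ℝ) + 1)) := h13
        _ ≤ m * (β * (n + L)) := mul_le_mul_of_nonneg_left h15 (Nat.cast_nonneg _)
        _ = _ := by ring
    linarith
  -- conclusion
  have hn : (n : ℝ) * ∏ i, q i = ∑ x : ZMod n, ∏ i, q i := by
    rw [sum_const, card_univ, ZMod.card, nsmul_eq_mul]
  rw [hn, ← sum_sub_distrib]
  refine (abs_sum_le_sum_abs _ _).trans ?_
  have h17 : ∑ x : ZMod n, |P x - ∏ i, q i| ≤ ∑ x : ZMod n, (if x ∈ X1 ∪ X2 then (1 : ℝ) else 0) := by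
    refine sum_le_sum fun x _ => ?_
    split_ifs with hx
    · rw [abs_le]
      constructor <;> linarith [(hP01 x).1, (hP01 x).2]
    · rw [hgood x hx, sub_self, abs_zero]
  refine h17.trans ?_
  rw [sum_boole]
  have h18 : univ.filter (fun x => x ∈ X1 ∪ X2) = X1 ∪ X2 := by
    ext x; simp
  rw [h18]
  exact hX

end count

/-- the index set of all tuples -/
abbrev Tup2 (c m0 L n : ℕ) (T : Type) : Type :=
  Σ m : Fin (m0 + 1), (Fin m → Bool) × (Fin m → ZMod n) × (Fin m → (Fin c → T) → Fin L → Bool)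

theorem card_tup2 (c m0 L : ℕ) (T : Type) [Fintype T] [DecidableEq T] :
    ∃ C : ℕ, ∀ (n : ℕ) [NeZero n], Fintype.card (Tup2 c m0 L n T) ≤ C * n ^ m0 := by
  refine ⟨∑ m : Fin (m0 + 1), 2 ^ (m : ℕ) *
    ((2 ^ L) ^ (Fintype.card T ^ c)) ^ (m : ℕ), fun n _ => ?_⟩
  rw [Fintype.card_sigma, sum_mul]
  refine sum_le_sum fun m _ => ?_
  simp only [Fintype.card_prod, Fintype.card_fun, Fintype.card_fin, Fintype.card_bool, ZMod.card]
  have h1 : n ^ (m : ℕ) ≤ n ^ m0 :=
    Nat.pow_le_pow_right (Nat.pos_of_ne_zero (NeZero.ne n)) (Nat.lt_succ_iff.mp m.2)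
  calc 2 ^ (m : ℕ) * (n ^ (m : ℕ) * ((2 ^ L) ^ (Fintype.card T ^ c)) ^ (m : ℕ))
      = 2 ^ (m : ℕ) * ((2 ^ L) ^ (Fintype.card T ^ c)) ^ (m : ℕ) * n ^ (m : ℕ) := by ring
    _ ≤ _ := Nat.mul_le_mul_left _ h1

open Classical in
/-- **Configuration lemma** for predicates of the whole state -/
theorem config2 {T : Type} [Fintype T] (c L m0 : ℕ) (hL : 0 < L) (θ β : ℝ) (hθ : 0 < θ)
    (hβ : β < 1) :
    ∃ n0 : ℕ, ∀ mu : Fin c → T → ℝ, (∀ k t, 0 ≤ mu k t) → (∀ k, ∑ t, mu k t = 1) →
      ∀ (n : ℕ) [NeZero n], n0 ≤ n → ∃ w : Fin c → ℕ → T, (∀ k b, 0 < mu k (w k b)) ∧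
        ∀ (m : ℕ), m ≤ m0 → ∀ (D : Fin m → Finset (Fin c)) (s : Fin m → Bool) (a : Fin m → ZMod n)
          (G : Fin m → (Fin c → T) → ℕ → Prop) (q : Fin m → ℝ) (Bd : Finset ℕ),
          (∀ i p r r', (∀ k ∈ D i, r k = r' k) → (G i r p ↔ G i r' p)) →
          (∀ i, ∀ p < L, p ∉ Bd →
            ∑ t : Fin c → T, (if G i t p then ∏ k, mu k (t k) else 0) = q i) →
          (Bd.card : ℝ) ≤ β * L →
          (∀ i j, i ≠ j → ¬ Disjoint (D i) (D j) → s i = s j → L ≤ cd (a i - a j)) →
          |((univ.filter (fun x : ZMod n => ∀ i, Hit2 w L (G i) (pt (s i) (a i) x))).card : ℝ)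
            - n * ∏ i, q i| ≤ (θ + m * β) * n := by
  obtain ⟨C, hC⟩ := card_tup2 c m0 L T
  set c0 : ℝ := (m0 + 1) * L with hc0
  have hLr : (0 : ℝ) < L := by exact_mod_cast hL
  have hc0p : 0 < c0 := by positivity
  obtain ⟨n1, hn1⟩ := large_n C m0 (θ ^ 2 / (16 * c0 ^ 2)) (by positivity)
  obtain ⟨n2, hn2⟩ := exists_nat_ge ((8 * m0 ^ 2 * L + 2 * m0 * L) / θ)
  refine ⟨max n1 (max n2 1), fun mu h0 h1 n _ hn => ?_⟩
  have hnn1 : n1 ≤ n := (le_max_left _ _).trans hn
  have hnn2 : n2 ≤ n := (le_max_left _ _).trans ((le_max_right _ _).trans hn)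
  have hn1' : 1 ≤ n := (le_max_right _ _).trans ((le_max_right _ _).trans hn)
  have hnr : (1 : ℝ) ≤ n := by exact_mod_cast hn1'
  set B : ℕ := n / L + 1 with hB
  have hBn : (B : ℝ) ≤ 2 * n := by
    have h2 : B ≤ 2 * n := by
      have := Nat.div_le_self n L
      omega
    exact_mod_cast h2
  let bx : ZMod n → Fin B := fun x => ⟨x.val / L, by
    have := ZMod.val_lt x
    exact Nat.lt_succ_of_le (Nat.div_le_div_right this.le)⟩
  have hbx : ∀ x, (bx x : ℕ) = x.val / L := fun x => rfl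
  let f : Tup2 c m0 L n T → (Fin B → Fin c → T) → ℝ := fun κ =>
    cnt2 L bx κ.2.1 κ.2.2.1 (fun i t p => ∃ h : p < L, κ.2.2.2 i t ⟨p, h⟩ = true)
  have hf : ∀ κ ∈ (univ : Finset (Tup2 c m0 L n T)), ∀ i w r,
      |f κ (Function.update w i r) - f κ w| ≤ c0 := by
    intro κ _ i w r
    refine (cnt2_diff L hL bx hbx _ _ _ i w r).trans ?_
    rw [hc0]
    have h2 : ((κ.1 : ℕ) : ℝ) ≤ m0 + 1 := by
      have := κ.1.2
      exact_mod_cast this.le
    exact mul_le_mul_of_nonneg_right h2 hLr.le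
  obtain ⟨w, hw1, hw2⟩ := exists_good (rho mu) (rho_nonneg mu h0) (rho_sum mu h1) univ f c0 hf
    (θ * n / 2) (2 * n * c0 ^ 2) (by positivity) (by positivity)
    (mul_le_mul_of_nonneg_right hBn (sq_nonneg _)) (by
      have h2 := hn1 n hnn1
      have h3 : (((univ : Finset (Tup2 c m0 L n T)).card : ℕ) : ℝ) ≤ (C : ℝ) * (n : ℝ) ^ m0 := by
        rw [card_univ]
        exact_mod_cast hC n
      have h4 : (θ * n / 2) ^ 2 / (2 * (2 * n * c0 ^ 2)) = θ ^ 2 / (16 * c0 ^ 2) * n := by
        field_simp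
        ring
      rw [h4]
      exact lt_of_le_of_lt (mul_le_mul_of_nonneg_right h3 (by positivity)) h2)
  have hpos : ∀ b k, 0 < mu k (w b k) := by
    intro b k
    have h2 := hw1 b
    unfold rho at h2
    rcases lt_or_eq_of_le (h0 k (w b k)) with h3 | h3
    · exact h3
    · exfalso
      rw [prod_eq_zero (mem_univ k) h3.symm] at h2
      exact lt_irrefl _ h2
  obtain ⟨W, hW0, hW⟩ : ∃ W : Fin c → ℕ → T, (∀ k b, 0 < mu k (W k b)) ∧
      ∀ (y : ZMod n) (k : Fin c), W k (y.val / L) = w (bx y) k := by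
    refine ⟨fun k b => if h : b < B then w ⟨b, h⟩ k else w ⟨0, Nat.succ_pos _⟩ k, ?_, ?_⟩
    · intro k b
      simp only
      split_ifs
      · exact hpos _ _
      · exact hpos _ _
    · intro y k
      exact dif_pos (bx y).2
  refine ⟨W, hW0, ?_⟩
  intro m hm D s a G q Bd hG hq hBd ha
  -- the tuple
  let κ : Tup2 c m0 L n T := ⟨⟨m, Nat.lt_succ_of_le hm⟩, s, a, fun i t p => decide (G i t p)⟩
  have h2 := hw2 κ (mem_univ _)
  have hcnt : f κ = cnt2 L bx s a G := by
    funext w'
    show cnt2 L bx s a (fun i t p => ∃ h : p < L, decide (G i t p) = true) w' = _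
    unfold cnt2
    refine sum_congr rfl fun x _ => prod_congr rfl fun i _ => ?_
    have h3 : (pt (s i) (a i) x).val % L < L := Nat.mod_lt _ hL
    by_cases h4 : G i (w' (bx (pt (s i) (a i) x))) ((pt (s i) (a i) x).val % L)
    · rw [if_pos h4, if_pos ⟨h3, decide_eq_true h4⟩]
    · rw [if_neg h4, if_neg (fun h5 => h4 (of_decide_eq_true h5.2))]
  rw [hcnt] at h2
  have h3 := EE_cnt2 mu h0 h1 L hL β hβ bx hbx D s a G hG q Bd hq hBd ha
  have h4 : ((univ.filter (fun x : ZMod n => ∀ i, Hit2 W L (G i)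
      (pt (s i) (a i) x))).card : ℝ) = cnt2 L bx s a G w := by
    unfold cnt2
    rw [← sum_boole]
    refine sum_congr rfl fun x _ => ?_
    rw [prod_boole]
    have h5 : (∀ i, Hit2 W L (G i) (pt (s i) (a i) x)) ↔ ∀ i ∈ (univ : Finset (Fin m)),
        G i (w (bx (pt (s i) (a i) x))) ((pt (s i) (a i) x).val % L) := by
      unfold Hit2
      simp only [hW, mem_univ, true_implies]
    by_cases h6 : ∀ i ∈ (univ : Finset (Fin m)),
        G i (w (bx (pt (s i) (a i) x))) ((pt (s i) (a i) x).val % L)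
    · rw [if_pos h6, if_pos (h5.mpr h6)]
    · rw [if_neg h6, if_neg (fun h7 => h6 (h5.mp h7))]
  rw [h4]
  have hβ0 : 0 ≤ β := by
    by_contra hcon
    push Not at hcon
    have : β * L < 0 := mul_neg_of_neg_of_pos hcon hLr
    have h2 : (0 : ℝ) ≤ Bd.card := Nat.cast_nonneg _
    linarith
  have h5 : 4 * (m : ℝ) ^ 2 * L + m * β * (n + L) ≤ θ * n / 2 + m * β * n := by
    have h6 : (8 * (m0 : ℝ) ^ 2 * L + 2 * m0 * L) / θ ≤ n := hn2.trans (by exact_mod_cast hnn2)
    rw [div_le_iff₀ hθ] at h6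
    have h7 : (m : ℝ) ≤ m0 := by exact_mod_cast hm
    have h8 : (m : ℝ) ^ 2 ≤ (m0 : ℝ) ^ 2 := pow_le_pow_left₀ (Nat.cast_nonneg _) h7 2
    have h9 : (m : ℝ) ^ 2 * L ≤ (m0 : ℝ) ^ 2 * L := mul_le_mul_of_nonneg_right h8 hLr.le
    have h10 : (m : ℝ) * β * L ≤ m0 * L := by
      calc (m : ℝ) * β * L ≤ m * 1 * L := by
            apply mul_le_mul_of_nonneg_right _ hLr.le
            exact mul_le_mul_of_nonneg_left hβ.le (Nat.cast_nonneg _)
        _ ≤ m0 * L := by
            rw [mul_one]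
            exact mul_le_mul_of_nonneg_right h7 hLr.le
    nlinarith
  have h6 := abs_sub_le (cnt2 L bx s a G w) (EE (rho mu) (cnt2 L bx s a G)) (n * ∏ i, q i)
  linarith

end Pool.Agent.Lib.MP_c5b475_co.CF
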