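import Pool.Agent.Lib.MP_c5b475_co.CF.Config2

/-!
# Configuration lemma, any finite index type of the sequences
-/

set_option autoImplicit false
set_option linter.unusedSectionVars false
set_option linter.unusedVariables false

open Finset

namespace Pool.Agent.Lib.MP_c5b475_co.CF

open Classical in
/-- **Configuration lemma**, sequences indexed by any finite type -/
theorem config3 {ι T : Type} [Fintype ι] [DecidableEq ι] [Fintype T] (L m0 : ℕ) (hL : 0 < L)
    (θ β : ℝ) (hθ : 0 < θ) (hβ : β < 1) :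
    ∃ n0 : ℕ, ∀ mu : ι → T → ℝ, (∀ k t, 0 ≤ mu k t) → (∀ k, ∑ t, mu k t = 1) →
      ∀ (n : ℕ) [NeZero n], n0 ≤ n → ∃ w : ι → ℕ → T, (∀ k b, 0 < mu k (w k b)) ∧
        ∀ (m : ℕ), m ≤ m0 → ∀ (D : Fin m → Finset ι) (s : Fin m → Bool) (a : Fin m → ZMod n)
          (G : Fin m → (ι → T) → ℕ → Prop) (q : Fin m → ℝ) (Bd : Finset ℕ),
          (∀ i t t' p, (∀ k ∈ D i, t k = t' k) → G i t p → G i t' p) →
          (∀ i, ∀ p < L, p ∉ Bd →
            ∑ t : ι → T, (if G i t p then ∏ k, mu k (t k) else 0) = q i) →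
          (Bd.card : ℝ) ≤ β * L →
          (∀ i j, i ≠ j → s i = s j → ¬ Disjoint (D i) (D j) → L ≤ cd (a i - a j)) →
          |((univ.filter (fun x : ZMod n => ∀ i, G i (fun k => w k ((pt (s i) (a i) x).val / L))
            ((pt (s i) (a i) x).val % L))).card : ℝ) - n * ∏ i, q i| ≤ (θ + m * β) * n := by
  obtain ⟨n0, hn0⟩ := config2 (T := T) (Fintype.card ι) L m0 hL θ β hθ hβ
  refine ⟨n0, fun mu h0 h1 n _ hn => ?_⟩
  let e : ι ≃ Fin (Fintype.card ι) := Fintype.equivFin ι
  obtain ⟨w, hw1, hw2⟩ := hn0 (fun k => mu (e.symm k)) (fun k t => h0 _ _) (fun k => h1 _) n hn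
  refine ⟨fun k b => w (e k) b, ?_, ?_⟩
  · intro k b
    have := hw1 (e k) b
    simpa using this
  intro m hm D s a G q Bd hG hq hBd ha
  have key := hw2 m hm (fun i => (D i).map e.toEmbedding) s a
    (fun i t p => G i (fun k => t (e k)) p) q Bd ?_ ?_ hBd ?_
  · exact key
  · intro i p r r' hrr
    constructor
    · refine hG i _ _ p fun k hk => hrr (e k) ?_
      exact mem_map_of_mem _ hk
    · refine hG i _ _ p fun k hk => (hrr (e k) ?_).symm
      exact mem_map_of_mem _ hk
  · intro i p hp hpB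
    rw [← hq i p hp hpB]
    rw [← Equiv.sum_comp (e.arrowCongr (Equiv.refl T))]
    refine sum_congr rfl fun t _ => ?_
    have e1 : (fun k => (e.arrowCongr (Equiv.refl T)) t (e k)) = t := by
      funext k
      simp
    have e2 : ∏ k, mu (e.symm k) ((e.arrowCongr (Equiv.refl T)) t k) = ∏ k, mu k (t k) := by
      rw [← Equiv.prod_comp e]
      refine prod_congr rfl fun k _ => ?_
      simp
    rw [e1, e2]
  · intro i j hij hD hs
    refine ha i j hij hs fun hdis => hD ?_
    rw [disjoint_left] at hdis ⊢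
    intro k hk hk'
    rw [mem_map] at hk hk'
    obtain ⟨u, hu, huk⟩ := hk
    obtain ⟨v, hv, hvk⟩ := hk'
    have : u = v := e.injective (by
      have h3 : e u = k := huk
      have h4 : e v = k := hvk
      rw [h3, h4])
    exact hdis hu (this ▸ hv)

end Pool.Agent.Lib.MP_c5b475_co.CF
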