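import Pool.Agent.Lib.MP_c5b475_co.CF.Config

/-!
# Configuration lemma, main statement

`config`: one choice of the types of the blocks is good for all tuples of at most `m0` conditions.
-/

set_option autoImplicit false
set_option linter.unusedSectionVars false
set_option linter.unusedVariables false

open Finset

namespace Pool.Agent.Lib.MP_c5b475_co.CF

/-- the index set of all tuples -/
abbrev Tup (c m0 L n : ℕ) (T : Type) : Type :=
  Σ m : Fin (m0 + 1), (Fin m → Fin c) × (Fin m → Bool) × (Fin m → ZMod n) ×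
    (Fin m → T → Fin L → Bool)

theorem card_tup (c m0 L : ℕ) (T : Type) [Fintype T] [DecidableEq T] :
    ∃ C : ℕ, ∀ (n : ℕ) [NeZero n], Fintype.card (Tup c m0 L n T) ≤ C * n ^ m0 := by
  refine ⟨∑ m : Fin (m0 + 1), c ^ (m : ℕ) * (2 ^ (m : ℕ) *
    ((2 ^ L) ^ Fintype.card T) ^ (m : ℕ)), fun n _ => ?_⟩
  rw [Fintype.card_sigma, sum_mul]
  refine sum_le_sum fun m _ => ?_
  simp only [Fintype.card_prod, Fintype.card_fun, Fintype.card_fin, Fintype.card_bool, ZMod.card]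
  have h1 : n ^ (m : ℕ) ≤ n ^ m0 :=
    Nat.pow_le_pow_right (Nat.pos_of_ne_zero (NeZero.ne n)) (Nat.lt_succ_iff.mp m.2)
  calc c ^ (m : ℕ) * (2 ^ (m : ℕ) * (n ^ (m : ℕ) * ((2 ^ L) ^ Fintype.card T) ^ (m : ℕ)))
      = c ^ (m : ℕ) * (2 ^ (m : ℕ) * ((2 ^ L) ^ Fintype.card T) ^ (m : ℕ)) * n ^ (m : ℕ) := by ring
    _ ≤ _ := Nat.mul_le_mul_left _ h1

theorem large_n (C m0 : ℕ) (δ : ℝ) (hδ : 0 < δ) : ∃ n1 : ℕ, ∀ n : ℕ, n1 ≤ n →
    (C : ℝ) * (n : ℝ) ^ m0 * (2 * Real.exp (-(δ * n))) < 1 := by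
  have h1 := Real.tendsto_pow_mul_exp_neg_atTop_nhds_zero m0
  have h2 : Filter.Tendsto (fun n : ℕ => δ * (n : ℝ)) Filter.atTop Filter.atTop :=
    Filter.Tendsto.const_mul_atTop hδ tendsto_natCast_atTop_atTop
  have h3 := h1.comp h2
  have h4 : (0 : ℝ) < δ ^ m0 / (2 * (C + 1)) := by positivity
  have h5 := (h3.eventually (gt_mem_nhds h4)).exists_forall_of_atTop
  obtain ⟨n1, hn1⟩ := h5
  refine ⟨n1, fun n hn => ?_⟩
  have h6 := hn1 n hn
  simp only [Function.comp] at h6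
  rw [lt_div_iff₀ (by positivity), mul_pow] at h6
  have h7 : (0 : ℝ) < δ ^ m0 := by positivity
  have h8 : (n : ℝ) ^ m0 * Real.exp (-(δ * n)) * (2 * (C + 1)) < 1 := by
    have h9 : δ ^ m0 * ((n : ℝ) ^ m0 * Real.exp (-(δ * n)) * (2 * (C + 1))) < δ ^ m0 * 1 := by
      linarith
    exact lt_of_mul_lt_mul_left h9 h7.le
  have h10 : (0 : ℝ) ≤ (n : ℝ) ^ m0 * Real.exp (-(δ * n)) := by positivity
  nlinarith

open Classical in
/-- **Configuration lemma** -/
theorem config {T : Type} [Fintype T] (c L m0 : ℕ) (hL : 0 < L) (θ β : ℝ) (hθ : 0 < θ)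
    (hβ : β < 1) :
    ∃ n0 : ℕ, ∀ mu : Fin c → T → ℝ, (∀ k t, 0 ≤ mu k t) → (∀ k, ∑ t, mu k t = 1) →
      ∀ (n : ℕ) [NeZero n], n0 ≤ n → ∃ w : Fin c → ℕ → T, (∀ k b, 0 < mu k (w k b)) ∧
        ∀ (m : ℕ), m ≤ m0 → ∀ (k : Fin m → Fin c) (s : Fin m → Bool) (a : Fin m → ZMod n)
          (G : Fin m → T → ℕ → Prop) (q : Fin m → ℝ) (Bd : Finset ℕ),
          (∀ i, ∀ p < L, p ∉ Bd → ∑ t, (if G i t p then mu (k i) t else 0) = q i) →
          (Bd.card : ℝ) ≤ β * L →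
          (∀ i j, i ≠ j → k i = k j → s i = s j → L ≤ cd (a i - a j)) →
          |((univ.filter (fun x : ZMod n => ∀ i, Hit w L (k i) (G i) (pt (s i) (a i) x))).card : ℝ)
            - n * ∏ i, q i| ≤ (θ + m * β) * n := by
  obtain ⟨C, hC⟩ := card_tup c m0 L T
  set c0 : ℝ := (m0 + 1) * L with hc0
  have hLr : (0 : ℝ) < L := by exact_mod_cast hL
  have hc0p : 0 < c0 := by positivity
  obtain ⟨n1, hn1⟩ := large_n C m0 (θ ^ 2 / (16 * c0 ^ 2)) (by positivity)
  obtain ⟨n2, hn2⟩ := exists_nat_ge ((8 * m0 ^ 2 * L + 2 * m0 * L) / θ)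
  refine ⟨max n1 (max n2 1), fun mu h0 h1 n _ hn => ?_⟩
  have hnn1 : n1 ≤ n := (le_max_left _ _).trans hn
  have hnn2 : n2 ≤ n := (le_max_left _ _).trans ((le_max_right _ _).trans hn)
  have hn1' : 1 ≤ n := (le_max_right _ _).trans ((le_max_right _ _).trans hn)
  have hnr : (1 : ℝ) ≤ n := by exact_mod_cast hn1'
  set B : ℕ := n / L + 1 with hB
  have hBn : (B : ℝ) ≤ 2 * n := by
    have h2 : B ≤ 2 * n := by
      have := Nat.div_le_self n L
      omega
    exact_mod_cast h2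
  let bx : ZMod n → Fin B := fun x => ⟨x.val / L, by
    have := ZMod.val_lt x
    exact Nat.lt_succ_of_le (Nat.div_le_div_right this.le)⟩
  have hbx : ∀ x, (bx x : ℕ) = x.val / L := fun x => rfl
  let f : Tup c m0 L n T → (Fin B → Fin c → T) → ℝ := fun κ =>
    cnt L bx κ.2.1 κ.2.2.1 κ.2.2.2.1 (fun i t p => ∃ h : p < L, κ.2.2.2.2 i t ⟨p, h⟩ = true)
  have hf : ∀ κ ∈ (univ : Finset (Tup c m0 L n T)), ∀ i w r,
      |f κ (Function.update w i r) - f κ w| ≤ c0 := by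
    intro κ _ i w r
    refine (cnt_diff L hL bx hbx _ _ _ _ i w r).trans ?_
    rw [hc0]
    have h2 : ((κ.1 : ℕ) : ℝ) ≤ m0 + 1 := by
      have := κ.1.2
      exact_mod_cast this.le
    exact mul_le_mul_of_nonneg_right h2 hLr.le
  obtain ⟨w, hw1, hw2⟩ := exists_good (rho mu) (rho_nonneg mu h0) (rho_sum mu h1) univ f c0 hf
    (θ * n / 2) (2 * n * c0 ^ 2) (by positivity) (by positivity)
    (mul_le_mul_of_nonneg_right hBn (sq_nonneg _)) (by
      have h2 := hn1 n hnn1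
      have h3 : (((univ : Finset (Tup c m0 L n T)).card : ℕ) : ℝ) ≤ (C : ℝ) * (n : ℝ) ^ m0 := by
        rw [card_univ]
        exact_mod_cast hC n
      have h4 : (θ * n / 2) ^ 2 / (2 * (2 * n * c0 ^ 2)) = θ ^ 2 / (16 * c0 ^ 2) * n := by
        field_simp
        ring
      rw [h4]
      exact lt_of_le_of_lt (mul_le_mul_of_nonneg_right h3 (by positivity)) h2)
  have hpos : ∀ b k, 0 < mu k (w b k) := by
    intro b k
    have h2 := hw1 b
    unfold rho at h2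
    rcases lt_or_eq_of_le (h0 k (w b k)) with h3 | h3
    · exact h3
    · exfalso
      rw [prod_eq_zero (mem_univ k) h3.symm] at h2
      exact lt_irrefl _ h2
  obtain ⟨W, hW0, hW⟩ : ∃ W : Fin c → ℕ → T, (∀ k b, 0 < mu k (W k b)) ∧
      ∀ (y : ZMod n) (k : Fin c), W k (y.val / L) = w (bx y) k := by
    refine ⟨fun k b => if h : b < B then w ⟨b, h⟩ k else w ⟨0, Nat.succ_pos _⟩ k, ?_, ?_⟩
    · intro k b
      simp only
      split_ifs
      · exact hpos _ _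
      · exact hpos _ _
    · intro y k
      exact dif_pos (bx y).2
  refine ⟨W, hW0, ?_⟩
  intro m hm k s a G q Bd hq hBd ha
  -- the tuple
  let κ : Tup c m0 L n T := ⟨⟨m, Nat.lt_succ_of_le hm⟩, k, s, a, fun i t p => decide (G i t p)⟩
  have h2 := hw2 κ (mem_univ _)
  have hcnt : f κ = cnt L bx k s a G := by
    funext w'
    show cnt L bx k s a (fun i t p => ∃ h : p < L, decide (G i t p) = true) w' = _
    unfold cnt
    refine sum_congr rfl fun x _ => prod_congr rfl fun i _ => ?_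
    have h3 : (pt (s i) (a i) x).val % L < L := Nat.mod_lt _ hL
    by_cases h4 : G i (w' (bx (pt (s i) (a i) x)) (k i)) ((pt (s i) (a i) x).val % L)
    · rw [if_pos h4, if_pos ⟨h3, decide_eq_true h4⟩]
    · rw [if_neg h4, if_neg (fun h5 => h4 (of_decide_eq_true h5.2))]
  rw [hcnt] at h2
  have h3 := EE_cnt mu h0 h1 L hL β hβ bx hbx k s a G q Bd hq hBd ha
  have h4 : ((univ.filter (fun x : ZMod n => ∀ i, Hit W L (k i) (G i)
      (pt (s i) (a i) x))).card : ℝ) = cnt L bx k s a G w := by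
    unfold cnt
    rw [← sum_boole]
    refine sum_congr rfl fun x _ => ?_
    rw [prod_boole]
    have h5 : (∀ i, Hit W L (k i) (G i) (pt (s i) (a i) x)) ↔ ∀ i ∈ (univ : Finset (Fin m)),
        G i (w (bx (pt (s i) (a i) x)) (k i)) ((pt (s i) (a i) x).val % L) := by
      unfold Hit
      simp only [hW, mem_univ, true_implies]
    by_cases h6 : ∀ i ∈ (univ : Finset (Fin m)),
        G i (w (bx (pt (s i) (a i) x)) (k i)) ((pt (s i) (a i) x).val % L)
    · rw [if_pos h6, if_pos (h5.mpr h6)]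
    · rw [if_neg h6, if_neg (fun h7 => h6 (h5.mp h7))]
  rw [h4]
  have hβ0 : 0 ≤ β := by
    by_contra hcon
    push Not at hcon
    have : β * L < 0 := mul_neg_of_neg_of_pos hcon hLr
    have h2 : (0 : ℝ) ≤ Bd.card := Nat.cast_nonneg _
    linarith
  have h5 : 4 * (m : ℝ) ^ 2 * L + m * β * (n + L) ≤ θ * n / 2 + m * β * n := by
    have h6 : (8 * (m0 : ℝ) ^ 2 * L + 2 * m0 * L) / θ ≤ n := hn2.trans (by exact_mod_cast hnn2)
    rw [div_le_iff₀ hθ] at h6
    have h7 : (m : ℝ) ≤ m0 := by exact_mod_cast hm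
    have h8 : (m : ℝ) ^ 2 ≤ (m0 : ℝ) ^ 2 := pow_le_pow_left₀ (Nat.cast_nonneg _) h7 2
    have h9 : (m : ℝ) ^ 2 * L ≤ (m0 : ℝ) ^ 2 * L := mul_le_mul_of_nonneg_right h8 hLr.le
    have h10 : (m : ℝ) * β * L ≤ m0 * L := by
      calc (m : ℝ) * β * L ≤ m * 1 * L := by
            apply mul_le_mul_of_nonneg_right _ hLr.le
            exact mul_le_mul_of_nonneg_left hβ.le (Nat.cast_nonneg _)
        _ ≤ m0 * L := by
            rw [mul_one]
            exact mul_le_mul_of_nonneg_right h7 hLr.le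
    nlinarith
  have h6 := abs_sub_le (cnt L bx k s a G w) (EE (rho mu) (cnt L bx k s a G)) (n * ∏ i, q i)
  linarith

end Pool.Agent.Lib.MP_c5b475_co.CF
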