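import Mathlib

/-!
# Bounded differences for finite product weights

`EE ρ f` is the expectation of `f : (Fin B → R) → ℝ` under independent coordinates with law `ρ`.
`mcd`: if changing coordinate `i` changes `f` by at most `c i`, then the mass of
`{w | t ≤ |f w - EE ρ f|}` is at most `2 exp (-t^2 / (2 ∑ (c i)^2))`.
`exists_good`: one `w` is good for finitely many functions at the same time.
-/

set_option autoImplicit false

open Finset

namespace Pool.Agent.Lib.MP_c5b475_co.CF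

set_option linter.unusedSectionVars false
set_option linter.unusedVariables false

variable {R : Type} [Fintype R]

/-- product weight -/
noncomputable def pw (ρ : R → ℝ) {B : ℕ} (w : Fin B → R) : ℝ := ∏ i, ρ (w i)

/-- expectation under the product weight -/
noncomputable def EE (ρ : R → ℝ) {B : ℕ} (f : (Fin B → R) → ℝ) : ℝ := ∑ w, pw ρ w * f w

theorem pw_nonneg (ρ : R → ℝ) (hρ : ∀ r, 0 ≤ ρ r) {B : ℕ} (w : Fin B → R) : 0 ≤ pw ρ w :=
  prod_nonneg fun i _ => hρ _

theorem pw_cons (ρ : R → ℝ) {B : ℕ} (r : R) (w : Fin B → R) :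
    pw ρ (Fin.cons r w : Fin (B + 1) → R) = ρ r * pw ρ w := by
  unfold pw
  rw [Fin.prod_univ_succ]
  simp

theorem EE_succ (ρ : R → ℝ) {B : ℕ} (f : (Fin (B + 1) → R) → ℝ) :
    EE ρ f = ∑ r, ρ r * EE ρ (fun w : Fin B → R => f (Fin.cons r w)) := by
  unfold EE
  rw [← (Fin.consEquiv (fun _ : Fin (B + 1) => R)).sum_comp, Fintype.sum_prod_type]
  refine sum_congr rfl fun r _ => ?_
  rw [mul_sum]
  refine sum_congr rfl fun w _ => ?_
  have : (Fin.consEquiv (fun _ : Fin (B + 1) => R)) (r, w) = (Fin.cons r w : Fin (B + 1) → R) := rfl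
  rw [this, pw_cons]
  ring

theorem EE_zero (ρ : R → ℝ) (f : (Fin 0 → R) → ℝ) : EE ρ f = f Fin.elim0 := by
  unfold EE pw
  rw [Fintype.sum_eq_single Fin.elim0 (fun w hw => absurd (Subsingleton.elim w _) hw)]
  simp

theorem EE_const (ρ : R → ℝ) (h1 : ∑ r, ρ r = 1) {B : ℕ} (c : ℝ) :
    EE ρ (fun _ : Fin B → R => c) = c := by
  induction B with
  | zero => rw [EE_zero]
  | succ B ih =>
    rw [EE_succ]
    simp_rw [ih]
    rw [← sum_mul, h1, one_mul]

theorem EE_mono (ρ : R → ℝ) (hρ : ∀ r, 0 ≤ ρ r) {B : ℕ} (f g : (Fin B → R) → ℝ)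
    (h : ∀ w, f w ≤ g w) : EE ρ f ≤ EE ρ g :=
  sum_le_sum fun w _ => mul_le_mul_of_nonneg_left (h w) (pw_nonneg ρ hρ w)

theorem EE_add (ρ : R → ℝ) {B : ℕ} (f g : (Fin B → R) → ℝ) :
    EE ρ (fun w => f w + g w) = EE ρ f + EE ρ g := by
  unfold EE
  rw [← sum_add_distrib]
  exact sum_congr rfl fun w _ => by ring

theorem EE_sub (ρ : R → ℝ) {B : ℕ} (f g : (Fin B → R) → ℝ) :
    EE ρ (fun w => f w - g w) = EE ρ f - EE ρ g := by
  unfold EE
  rw [← sum_sub_distrib]
  exact sum_congr rfl fun w _ => by ring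

theorem EE_smul (ρ : R → ℝ) {B : ℕ} (a : ℝ) (f : (Fin B → R) → ℝ) :
    EE ρ (fun w => a * f w) = a * EE ρ f := by
  unfold EE
  rw [mul_sum]
  exact sum_congr rfl fun w _ => by ring

theorem EE_sum (ρ : R → ℝ) {B : ℕ} {κ : Type} (s : Finset κ) (f : κ → (Fin B → R) → ℝ) :
    EE ρ (fun w => ∑ k ∈ s, f k w) = ∑ k ∈ s, EE ρ (f k) := by
  unfold EE
  rw [sum_comm]
  exact sum_congr rfl fun w _ => mul_sum _ _ _

theorem EE_neg (ρ : R → ℝ) {B : ℕ} (f : (Fin B → R) → ℝ) :
    EE ρ (fun w => - f w) = - EE ρ f := by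
  unfold EE
  rw [← sum_neg_distrib]
  exact sum_congr rfl fun w _ => by ring

/-- one coordinate: symmetrisation and `cosh x ≤ exp (x^2/2)` -/
theorem mgf_one (ρ : R → ℝ) (hρ : ∀ r, 0 ≤ ρ r) (h1 : ∑ r, ρ r = 1) (g : R → ℝ) (c : ℝ)
    (hc : ∀ r r', |g r - g r'| ≤ c) (lam : ℝ) :
    ∑ r, ρ r * Real.exp (lam * (g r - ∑ s, ρ s * g s)) ≤ Real.exp (lam ^ 2 * c ^ 2 / 2) := by
  -- Jensen
  have hJ : Real.exp (-lam * ∑ s, ρ s * g s) ≤ ∑ s, ρ s * Real.exp (-lam * g s) := by
    have := convexOn_exp.map_sum_le (t := (univ : Finset R)) (w := ρ) (p := fun s => -lam * g s)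
      (fun s _ => hρ s) h1 (fun s _ => Set.mem_univ _)
    simp only [smul_eq_mul] at this
    calc Real.exp (-lam * ∑ s, ρ s * g s) = Real.exp (∑ s, ρ s * (-lam * g s)) := by
          congr 1
          rw [mul_sum]
          exact sum_congr rfl fun s _ => by ring
      _ ≤ _ := this
  have h2 : ∑ r, ρ r * Real.exp (lam * (g r - ∑ s, ρ s * g s)) ≤
      ∑ r, ∑ s, ρ r * ρ s * Real.exp (lam * (g r - g s)) := by
    refine sum_le_sum fun r _ => ?_
    have e1 : Real.exp (lam * (g r - ∑ s, ρ s * g s)) =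
        Real.exp (lam * g r) * Real.exp (-lam * ∑ s, ρ s * g s) := by
      rw [← Real.exp_add]; congr 1; ring
    have e2 : ∑ s, ρ r * ρ s * Real.exp (lam * (g r - g s)) =
        ρ r * (Real.exp (lam * g r) * ∑ s, ρ s * Real.exp (-lam * g s)) := by
      rw [mul_sum, mul_sum]
      refine sum_congr rfl fun s _ => ?_
      have : Real.exp (lam * (g r - g s)) = Real.exp (lam * g r) * Real.exp (-lam * g s) := by
        rw [← Real.exp_add]; congr 1; ring
      rw [this]; ring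
    rw [e1, e2]
    exact mul_le_mul_of_nonneg_left (mul_le_mul_of_nonneg_left hJ (Real.exp_pos _).le) (hρ r)
  refine h2.trans ?_
  -- symmetrise
  have h3 : ∑ r, ∑ s, ρ r * ρ s * Real.exp (lam * (g r - g s)) =
      ∑ r, ∑ s, ρ r * ρ s * Real.cosh (lam * (g r - g s)) := by
    have h4 : ∑ r, ∑ s, ρ r * ρ s * Real.exp (lam * (g r - g s)) =
        ∑ r, ∑ s, ρ r * ρ s * Real.exp (-(lam * (g r - g s))) := by
      rw [sum_comm]
      refine sum_congr rfl fun r _ => sum_congr rfl fun s _ => ?_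
      have : lam * (g s - g r) = -(lam * (g r - g s)) := by ring
      rw [this]; ring
    have h5 : ∀ r s, ρ r * ρ s * Real.cosh (lam * (g r - g s)) =
        (ρ r * ρ s * Real.exp (lam * (g r - g s)) +
          ρ r * ρ s * Real.exp (-(lam * (g r - g s)))) / 2 := by
      intro r s
      rw [Real.cosh_eq]; ring
    simp_rw [h5]
    simp_rw [← sum_div, sum_add_distrib]
    rw [← h4]; ring
  rw [h3]
  have h6 : ∀ r s, ρ r * ρ s * Real.cosh (lam * (g r - g s)) ≤
      ρ r * ρ s * Real.exp (lam ^ 2 * c ^ 2 / 2) := by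
    intro r s
    refine mul_le_mul_of_nonneg_left ?_ (mul_nonneg (hρ r) (hρ s))
    refine (Real.cosh_le_exp_half_sq _).trans (Real.exp_le_exp.mpr ?_)
    have h7 : (lam * (g r - g s)) ^ 2 ≤ lam ^ 2 * c ^ 2 := by
      rw [mul_pow]
      refine mul_le_mul_of_nonneg_left ?_ (sq_nonneg _)
      rw [← sq_abs (g r - g s)]
      exact pow_le_pow_left₀ (abs_nonneg _) (hc r s) 2
    linarith
  calc ∑ r, ∑ s, ρ r * ρ s * Real.cosh (lam * (g r - g s))
      ≤ ∑ r, ∑ s, ρ r * ρ s * Real.exp (lam ^ 2 * c ^ 2 / 2) :=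
        sum_le_sum fun r _ => sum_le_sum fun s _ => h6 r s
    _ = (∑ r, ρ r) * (∑ s, ρ s) * Real.exp (lam ^ 2 * c ^ 2 / 2) := by
        rw [sum_mul_sum, sum_mul]
        exact sum_congr rfl fun r _ => (sum_mul _ _ _).symm
    _ = _ := by rw [h1]; ring

theorem mgf (ρ : R → ℝ) (hρ : ∀ r, 0 ≤ ρ r) (h1 : ∑ r, ρ r = 1) (lam : ℝ) : ∀ (B : ℕ)
    (f : (Fin B → R) → ℝ) (c : Fin B → ℝ)
    (_ : ∀ i w r, |f (Function.update w i r) - f w| ≤ c i),
    EE ρ (fun w => Real.exp (lam * (f w - EE ρ f))) ≤ Real.exp (lam ^ 2 * (∑ i, c i ^ 2) / 2) := by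
  intro B
  induction B with
  | zero =>
    intro f c _
    rw [EE_zero, EE_zero]
    simp
  | succ B ih =>
    intro f c hf
    set g : R → ℝ := fun r => EE ρ (fun w : Fin B → R => f (Fin.cons r w)) with hg
    have hE : EE ρ f = ∑ r, ρ r * g r := EE_succ ρ f
    have hgc : ∀ r r', |g r - g r'| ≤ c 0 := by
      intro r r'
      have h2 : g r - g r' = EE ρ (fun w : Fin B → R => f (Fin.cons r w) - f (Fin.cons r' w)) := by
        rw [EE_sub]
      have h3 : ∀ w : Fin B → R, |f (Fin.cons r w) - f (Fin.cons r' w)| ≤ c 0 := by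
        intro w
        have := hf 0 (Fin.cons r' w) r
        rwa [Fin.update_cons_zero] at this
      rw [h2, abs_le]
      constructor
      · have := EE_mono ρ hρ (fun _ : Fin B → R => -c 0)
          (fun w => f (Fin.cons r w) - f (Fin.cons r' w)) (fun w => (abs_le.mp (h3 w)).1)
        rwa [EE_const ρ h1] at this
      · have := EE_mono ρ hρ (fun w => f (Fin.cons r w) - f (Fin.cons r' w))
          (fun _ : Fin B → R => c 0) (fun w => (abs_le.mp (h3 w)).2)
        rwa [EE_const ρ h1] at this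
    rw [EE_succ]
    have h4 : ∀ r, EE ρ (fun w : Fin B → R => Real.exp (lam * (f (Fin.cons r w) - EE ρ f))) ≤
        Real.exp (lam ^ 2 * (∑ i : Fin B, c i.succ ^ 2) / 2) *
          Real.exp (lam * (g r - EE ρ f)) := by
      intro r
      have h5 := ih (fun w => f (Fin.cons r w)) (fun i => c i.succ) (fun i w s => by
        have := hf i.succ (Fin.cons r w) s
        rwa [← Fin.cons_update] at this)
      have h6 : ∀ w : Fin B → R, Real.exp (lam * (f (Fin.cons r w) - EE ρ f)) =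
          Real.exp (lam * (g r - EE ρ f)) * Real.exp (lam * (f (Fin.cons r w) - g r)) := by
        intro w
        rw [← Real.exp_add]; congr 1; ring
      simp_rw [h6]
      rw [EE_smul, mul_comm]
      exact mul_le_mul_of_nonneg_right h5 (Real.exp_pos _).le
    calc ∑ r, ρ r * EE ρ (fun w : Fin B → R => Real.exp (lam * (f (Fin.cons r w) - EE ρ f)))
        ≤ ∑ r, ρ r * (Real.exp (lam ^ 2 * (∑ i : Fin B, c i.succ ^ 2) / 2) *
          Real.exp (lam * (g r - EE ρ f))) :=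
          sum_le_sum fun r _ => mul_le_mul_of_nonneg_left (h4 r) (hρ r)
      _ = Real.exp (lam ^ 2 * (∑ i : Fin B, c i.succ ^ 2) / 2) *
          ∑ r, ρ r * Real.exp (lam * (g r - ∑ s, ρ s * g s)) := by
          rw [hE]
          generalize Real.exp (lam ^ 2 * (∑ i : Fin B, c i.succ ^ 2) / 2) = A
          rw [mul_sum]
          exact sum_congr rfl fun r _ => by ring
      _ ≤ Real.exp (lam ^ 2 * (∑ i : Fin B, c i.succ ^ 2) / 2) *
          Real.exp (lam ^ 2 * c 0 ^ 2 / 2) :=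
          mul_le_mul_of_nonneg_left (mgf_one ρ hρ h1 g (c 0) hgc lam) (Real.exp_pos _).le
      _ = _ := by
          rw [← Real.exp_add]
          congr 1
          rw [Fin.sum_univ_succ]
          ring

open Classical in
/-- upper tail -/
theorem tail (ρ : R → ℝ) (hρ : ∀ r, 0 ≤ ρ r) (h1 : ∑ r, ρ r = 1) {B : ℕ}
    (f : (Fin B → R) → ℝ) (c : Fin B → ℝ)
    (hf : ∀ i w r, |f (Function.update w i r) - f w| ≤ c i) (t V : ℝ) (ht : 0 ≤ t) (hV : 0 < V)
    (hcV : ∑ i, c i ^ 2 ≤ V) :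
    ∑ w ∈ univ.filter (fun w => t ≤ f w - EE ρ f), pw ρ w ≤ Real.exp (-(t ^ 2 / (2 * V))) := by
  set lam := t / V with hlam
  have hl : 0 ≤ lam := div_nonneg ht hV.le
  have h2 := mgf ρ hρ h1 lam B f c hf
  have h3 : (∑ w ∈ univ.filter (fun w => t ≤ f w - EE ρ f), pw ρ w) * Real.exp (lam * t) ≤
      EE ρ (fun w => Real.exp (lam * (f w - EE ρ f))) := by
    unfold EE
    rw [sum_mul]
    refine (sum_le_sum fun w hw => ?_).trans
      (sum_le_sum_of_subset_of_nonneg (filter_subset _ _) fun w _ _ =>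
        mul_nonneg (pw_nonneg ρ hρ w) (Real.exp_pos _).le)
    rw [mem_filter] at hw
    refine mul_le_mul_of_nonneg_left (Real.exp_le_exp.mpr ?_) (pw_nonneg ρ hρ w)
    exact mul_le_mul_of_nonneg_left hw.2 hl
  have h4 : Real.exp (lam ^ 2 * (∑ i, c i ^ 2) / 2) ≤ Real.exp (lam ^ 2 * V / 2) :=
    Real.exp_le_exp.mpr (by
      have := mul_le_mul_of_nonneg_left hcV (sq_nonneg lam)
      linarith)
  have h5 := h3.trans (h2.trans h4)
  rw [← le_div_iff₀ (Real.exp_pos _), ← Real.exp_sub] at h5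
  refine h5.trans (Real.exp_le_exp.mpr (le_of_eq ?_))
  rw [hlam]
  field_simp
  ring

open Classical in
/-- **Bounded differences**, two sided -/
theorem mcd (ρ : R → ℝ) (hρ : ∀ r, 0 ≤ ρ r) (h1 : ∑ r, ρ r = 1) {B : ℕ}
    (f : (Fin B → R) → ℝ) (c : Fin B → ℝ)
    (hf : ∀ i w r, |f (Function.update w i r) - f w| ≤ c i) (t V : ℝ) (ht : 0 ≤ t) (hV : 0 < V)
    (hcV : ∑ i, c i ^ 2 ≤ V) :
    ∑ w ∈ univ.filter (fun w => t ≤ |f w - EE ρ f|), pw ρ w ≤
      2 * Real.exp (-(t ^ 2 / (2 * V))) := by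
  have h2 := tail ρ hρ h1 f c hf t V ht hV hcV
  have h3 := tail ρ hρ h1 (fun w => - f w) c (fun i w r => by
    have := hf i w r
    rw [← abs_neg]
    convert this using 2
    ring) t V ht hV hcV
  rw [EE_neg] at h3
  have h4 : univ.filter (fun w : Fin B → R => t ≤ |f w - EE ρ f|) ⊆
      univ.filter (fun w => t ≤ f w - EE ρ f) ∪ univ.filter (fun w => t ≤ - f w - - EE ρ f) := by
    intro w hw
    simp only [mem_filter, mem_univ, true_and, mem_union] at hw ⊢
    rcases le_abs.mp hw with h | h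
    · exact Or.inl h
    · right; linarith
  calc ∑ w ∈ univ.filter (fun w => t ≤ |f w - EE ρ f|), pw ρ w
      ≤ ∑ w ∈ univ.filter (fun w => t ≤ f w - EE ρ f) ∪
          univ.filter (fun w => t ≤ - f w - - EE ρ f), pw ρ w :=
        sum_le_sum_of_subset_of_nonneg h4 fun w _ _ => pw_nonneg ρ hρ w
    _ ≤ ∑ w ∈ univ.filter (fun w => t ≤ f w - EE ρ f), pw ρ w +
          ∑ w ∈ univ.filter (fun w => t ≤ - f w - - EE ρ f), pw ρ w := by
        rw [← sum_union_inter]
        exact le_add_of_nonneg_right (sum_nonneg fun w _ => pw_nonneg ρ hρ w)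
    _ ≤ _ := by linarith

/-- one `w` good for finitely many functions with the same bound of the differences -/
theorem exists_good (ρ : R → ℝ) (hρ : ∀ r, 0 ≤ ρ r) (h1 : ∑ r, ρ r = 1) {B : ℕ} {κ : Type}
    (s : Finset κ) (f : κ → (Fin B → R) → ℝ) (c : ℝ)
    (hf : ∀ k ∈ s, ∀ i w r, |f k (Function.update w i r) - f k w| ≤ c) (t V : ℝ) (ht : 0 ≤ t)
    (hV : 0 < V) (hcV : B * c ^ 2 ≤ V)
    (hs : (s.card : ℝ) * (2 * Real.exp (-(t ^ 2 / (2 * V)))) < 1) :
    ∃ w : Fin B → R, (∀ i, 0 < ρ (w i)) ∧ ∀ k ∈ s, |f k w - EE ρ (f k)| < t := by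
  classical
  by_contra hcon
  push Not at hcon
  have h2 : (1 : ℝ) ≤ ∑ k ∈ s, ∑ w ∈ univ.filter (fun w => t ≤ |f k w - EE ρ (f k)|), pw ρ w := by
    have h3 : (1 : ℝ) = ∑ w : Fin B → R, pw ρ w := by
      have := EE_const ρ h1 (B := B) 1
      unfold EE at this
      simpa using this.symm
    have h4 : ∀ k ∈ s, ∑ w ∈ univ.filter (fun w => t ≤ |f k w - EE ρ (f k)|), pw ρ w =
        ∑ w : Fin B → R, if t ≤ |f k w - EE ρ (f k)| then pw ρ w else 0 := fun k _ => by
      rw [sum_filter]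
    rw [sum_congr rfl h4, sum_comm, h3]
    refine sum_le_sum fun w _ => ?_
    by_cases hw : ∀ i, 0 < ρ (w i)
    · obtain ⟨k, hk, hk2⟩ := hcon w hw
      have := single_le_sum (f := fun k => if t ≤ |f k w - EE ρ (f k)| then pw ρ w else 0)
        (fun k _ => by
          split_ifs
          · exact pw_nonneg ρ hρ w
          · exact le_refl _) hk
      simpa [hk2] using this
    · push Not at hw
      obtain ⟨i, hi⟩ := hw
      have hz : pw ρ w = 0 := by
        unfold pw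
        exact prod_eq_zero (mem_univ i) (le_antisymm hi (hρ _))
      rw [hz]
      exact sum_nonneg fun k _ => by split_ifs <;> exact le_refl _
  have h5 : ∑ k ∈ s, ∑ w ∈ univ.filter (fun w => t ≤ |f k w - EE ρ (f k)|), pw ρ w ≤
      ∑ k ∈ s, 2 * Real.exp (-(t ^ 2 / (2 * V))) := by
    refine sum_le_sum fun k hk => ?_
    refine mcd ρ hρ h1 (f k) (fun _ => c) (fun i w r => hf k hk i w r) t V ht hV ?_
    rw [sum_const, card_univ, Fintype.card_fin, nsmul_eq_mul]
    exact hcV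
  rw [sum_const, nsmul_eq_mul] at h5
  linarith

end Pool.Agent.Lib.MP_c5b475_co.CF
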